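import Pool.Agent.Helper25.HV.Defs

/-!
# HV: basic facts about the resonator
-/

open Finset MeasureTheory Filter Topology

namespace Pool.Agent.Helper25.HV

open Pool.Agent.Helper69.HG

lemma getD_nat_bd (l : List ℕ) {M : ℕ} (h : ∀ x ∈ l, x ≤ M) (i : ℕ) : l.getD i 0 ≤ M := by
  rcases lt_or_ge i l.length with hi | hi
  · rw [List.getD_eq_getElem _ _ hi]
    exact h _ (List.getElem_mem hi)
  · rw [List.getD_eq_default _ _ hi]
    exact Nat.zero_le _

theorem okA : Ok dA where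
  S0 := by unfold dA; norm_num
  lo0 := by unfold dA; norm_num
  loS := by unfold dA; norm_num
  B1 := by unfold dA; norm_num
  BS := by unfold dA; norm_num
  N1 := by unfold dA; norm_num
  N2 := by unfold dA; norm_num
  NS := by unfold dA; norm_num
  k1 i := by
    have h := getD_nat_bd K1L (M := 20) (by decide) i
    have h' : (K1L.getD i 0 : ℝ) ≤ 20 := by exact_mod_cast h
    show 0 ≤ (K1L.getD i 0 : ℝ) / 10 ∧ (K1L.getD i 0 : ℝ) / 10 ≤ 2
    exact ⟨by positivity, by linarith⟩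
  k2 i := by
    have h := getD_nat_bd K2L (M := 20) (by decide) i
    have h' : (K2L.getD i 0 : ℝ) ≤ 20 := by exact_mod_cast h
    show 0 ≤ (K2L.getD i 0 : ℝ) / 10 ∧ (K2L.getD i 0 : ℝ) / 10 ≤ 2
    exact ⟨by positivity, by linarith⟩
  Q1 n hn := by
    show ((Q1L.getD n 0 : ℤ) : ℝ) = 0
    have : Q1L.getD n 0 = 0 := List.getD_eq_default _ _ (by
      have h1 : Q1L.length = 29 := by decide
      have h2 : dA.N1 = 28 := rfl
      omega)
    rw [this]; norm_num
  Q2 n hn := by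
    show ((Q2L.getD n 0 : ℤ) : ℝ) = 0
    have : Q2L.getD n 0 = 0 := List.getD_eq_default _ _ (by
      have h1 : Q2L.length = 13 := by decide
      have h2 : dA.N2 = 12 := rfl
      omega)
    rw [this]; norm_num

theorem okB : Ok dB where
  S0 := by unfold dB; norm_num
  lo0 := by unfold dB; norm_num
  loS := by unfold dB; norm_num
  B1 := by unfold dB; norm_num
  BS := by unfold dB; norm_num
  N1 := by unfold dB; norm_num
  N2 := by unfold dB; norm_num
  NS := by unfold dB; norm_num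
  k1 i := by
    have h := getD_nat_bd K3L (M := 20) (by decide) i
    have h' : (K3L.getD i 0 : ℝ) ≤ 20 := by exact_mod_cast h
    show 0 ≤ (K3L.getD i 0 : ℝ) / 10 ∧ (K3L.getD i 0 : ℝ) / 10 ≤ 2
    exact ⟨by positivity, by linarith⟩
  k2 i := by
    show (0:ℝ) ≤ 0 ∧ (0:ℝ) ≤ 2
    norm_num
  Q1 n hn := by
    show ((Q3L.getD n 0 : ℤ) : ℝ) = 0
    have : Q3L.getD n 0 = 0 := List.getD_eq_default _ _ (by
      have h1 : Q3L.length = 24 := by decide
      have h2 : dB.N1 = 23 := rfl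
      omega)
    rw [this]; norm_num
  Q2 n hn := by
    show (if n = 0 then (1:ℝ) else 0) = 0
    rw [if_neg (by omega)]

section
variable {D : Dat}

lemma Ok.Spos (h : Ok D) : (0:ℝ) < D.S := by exact_mod_cast h.S0

lemma Ok.lopos (h : Ok D) : 0 < D.lo := lt_of_lt_of_le (by norm_num) h.lo0

/-- size from the index -/
lemma le_ixD (h : Ok D) {T : ℝ} (hT : 1 < T) {p : ℕ} (hp : 0 < p) : (p : ℝ) ≤ T ^ ((ixD D T p : ℝ) / D.S) := by
  unfold ixD
  have hL : 0 < Real.log T := Real.log_pos hT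
  have hp0 : (0:ℝ) < p := by exact_mod_cast hp
  have hS := h.Spos
  have h1 := Nat.le_ceil (D.S * Real.log p / Real.log T)
  rw [div_le_iff₀ hL] at h1
  rw [Real.rpow_def_of_pos (by linarith), ← Real.log_le_iff_le_exp hp0]
  have h2 : Real.log p ≤ (⌈D.S * Real.log p / Real.log T⌉₊ : ℝ) * Real.log T / D.S := by
    rw [le_div_iff₀ hS]; linarith
  calc Real.log p ≤ _ := h2
    _ = _ := by ring

/-- the logarithm from the index -/
lemma log_le_ixD (h : Ok D) {T : ℝ} (hT : 1 < T) {p : ℕ} (hp : 0 < p) :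
    Real.log p ≤ (ixD D T p : ℝ) / D.S * Real.log T := by
  have hT0 : 0 < T := by linarith
  have h1 := Real.log_le_log (by exact_mod_cast hp) (le_ixD h hT hp)
  rwa [Real.log_rpow hT0] at h1

lemma Adm.pos {T : ℝ} {p : ℕ} (h : Adm D T p) : 0 < p := h.1.pos

lemma Adm.ix_pos (hD : Ok D) {T : ℝ} (hT : 1 < T) {p : ℕ} (h : Adm D T p) : 1 ≤ ixD D T p := by
  unfold ixD
  rw [Nat.one_le_ceil_iff]
  have hL : 0 < Real.log T := Real.log_pos hT
  have hp : (1:ℝ) < p := by exact_mod_cast h.1.one_lt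
  have := Real.log_pos hp
  have := hD.Spos
  positivity

lemma Adm.gt (hD : Ok D) {T : ℝ} (hT : 1 < T) {p : ℕ} (h : Adm D T p) : T ^ (1 / 4032 : ℝ) < (p : ℝ) :=
  lt_of_le_of_lt (Real.rpow_le_rpow_of_exponent_le hT.le hD.lo0) h.2.1

lemma Adm.le (hD : Ok D) {T : ℝ} (hT : 1 < T) {p : ℕ} (h : Adm D T p) : (p : ℝ) ≤ T ^ (1 / 3 : ℝ) := by
  refine (le_ixD hD hT h.pos).trans (Real.rpow_le_rpow_of_exponent_le hT.le ?_)
  have hS := hD.Spos
  rw [div_le_div_iff₀ hS (by norm_num)]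
  have h1 : ((ixD D T p : ℕ) : ℝ) ≤ D.B := by exact_mod_cast h.2.2
  have h2 : (3:ℝ) * D.B ≤ D.S := by exact_mod_cast hD.BS
  linarith

lemma Adm.big (hD : Ok D) {T : ℝ} (hT : 1 < T) {p : ℕ} (h : Adm D T p) : Big T p := ⟨h.gt hD hT, h.le hD hT⟩

lemma mem_AAD (hD : Ok D) {T : ℝ} (hT : 1 < T) {p : ℕ} : p ∈ AAD D T ↔ Adm D T p := by
  classical
  unfold AAD
  rw [Finset.mem_filter, Finset.mem_Icc]
  refine ⟨fun h => h.2, fun h => ⟨⟨h.1.one_lt.le, ?_⟩, h⟩⟩
  apply Nat.le_floor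
  refine (h.le hD hT).trans ?_
  conv_rhs => rw [← Real.rpow_one T]
  exact Real.rpow_le_rpow_of_exponent_le hT.le (by norm_num)

/-- the value on the admissible numbers -/
lemma rD_eq {T : ℝ} {n : ℕ} (h1 : Squarefree n) (h2 : ∀ p ∈ n.primeFactors, Adm D T p) :
    rD D T n = ∑ d ∈ n.divisors, wtD D T D.k1 D.Q1 d * wtD D T D.k2 D.Q2 (n / d) := by
  unfold rD
  rw [if_pos ⟨h1, h2⟩]

lemma rD_ne {T : ℝ} {n : ℕ} (h : rD D T n ≠ 0) : Squarefree n ∧ ∀ p ∈ n.primeFactors, Adm D T p := by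
  unfold rD at h
  by_contra hcon
  rw [if_neg hcon] at h
  exact h rfl

/-- the size of a squarefree number from its total index -/
lemma size_ix (hD : Ok D) {T : ℝ} (hT : 1 < T) {n : ℕ} (h1 : Squarefree n) :
    (n : ℝ) ≤ T ^ (((∑ p ∈ n.primeFactors, ixD D T p : ℕ) : ℝ) / D.S) := by
  have hT0 : 0 < T := by linarith
  calc (n : ℝ) = ∏ p ∈ n.primeFactors, (p : ℝ) := by
        rw [← Nat.cast_prod, Nat.prod_primeFactors_of_squarefree h1]
    _ ≤ ∏ p ∈ n.primeFactors, T ^ ((ixD D T p : ℝ) / D.S) :=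
        Finset.prod_le_prod (fun _ _ => by positivity) fun p hp => le_ixD hD hT (Nat.pos_of_mem_primeFactors hp)
    _ = T ^ (((∑ p ∈ n.primeFactors, ixD D T p : ℕ) : ℝ) / D.S) := by
        rw [← Real.rpow_sum_of_pos hT0, ← Finset.sum_div]
        push_cast
        rfl

lemma pf_split {n d : ℕ} (h1 : Squarefree n) (hd : d ∈ n.divisors) : n.primeFactors = d.primeFactors ∪ (n / d).primeFactors ∧
    Disjoint d.primeFactors (n / d).primeFactors := by
  obtain ⟨h2, h3⟩ := Nat.mem_divisors.1 hd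
  obtain ⟨q, hq⟩ := h2
  have hd0 : 0 < d := Nat.pos_of_ne_zero (by rintro rfl; rw [zero_mul] at hq; exact h3 hq)
  have hqn : n / d = q := by rw [hq]; exact Nat.mul_div_cancel_left q hd0
  have hc : Nat.Coprime d q := Nat.coprime_of_squarefree_mul (hq ▸ h1)
  rw [hqn]
  constructor
  · conv_lhs => rw [hq]
    exact hc.primeFactors_mul
  · exact hc.disjoint_primeFactors

/-- support of the coefficients -/
theorem rD_supp (hD : Ok D) {T : ℝ} (hT : 1 < T) {n : ℕ} (h : rD D T n ≠ 0) :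
    n ≠ 0 ∧ Squarefree n ∧ (n : ℝ) ≤ T ^ (((D.N1 : ℝ) + D.N2) / D.S) ∧ n.primeFactors.card ≤ D.N1 + D.N2 ∧
      ∀ p ∈ n.primeFactors, Adm D T p := by
  obtain ⟨h1, h2⟩ := rD_ne h
  rw [rD_eq h1 h2] at h
  obtain ⟨d, hd, hne⟩ := Finset.exists_ne_zero_of_sum_ne_zero h
  obtain ⟨hp, hdis⟩ := pf_split h1 hd
  have hi1 : ∑ p ∈ d.primeFactors, ixD D T p ≤ D.N1 := by
    by_contra hc
    apply hne
    unfold wtD
    rw [hD.Q1 _ (not_le.1 hc)]; ring
  have hi2 : ∑ p ∈ (n / d).primeFactors, ixD D T p ≤ D.N2 := by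
    by_contra hc
    apply hne
    unfold wtD
    rw [hD.Q2 _ (not_le.1 hc)]; ring
  have hi : ∑ p ∈ n.primeFactors, ixD D T p ≤ D.N1 + D.N2 := by
    rw [hp, Finset.sum_union hdis]
    omega
  refine ⟨h1.ne_zero, h1, (size_ix hD hT h1).trans (Real.rpow_le_rpow_of_exponent_le hT.le ?_), ?_, h2⟩
  · apply div_le_div_of_nonneg_right _ hD.Spos.le
    exact_mod_cast hi
  · refine le_trans ?_ hi
    rw [Finset.card_eq_sum_ones]
    exact Finset.sum_le_sum fun p hp => (h2 p hp).ix_pos hD hT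

lemma Q_bd {Q : ℕ → ℝ} {N : ℕ} (h : ∀ n, N < n → Q n = 0) : ∃ C : ℝ, 1 ≤ C ∧ ∀ n, |Q n| ≤ C := by
  refine ⟨1 + ∑ n ∈ Finset.range (N + 1), |Q n|, by
    have : 0 ≤ ∑ n ∈ Finset.range (N + 1), |Q n| := Finset.sum_nonneg fun _ _ => abs_nonneg _
    linarith, fun n => ?_⟩
  have h0 : 0 ≤ ∑ n ∈ Finset.range (N + 1), |Q n| := Finset.sum_nonneg fun _ _ => abs_nonneg _
  rcases lt_or_ge N n with hn | hn
  · rw [h n hn, abs_zero]; linarith
  · have := Finset.single_le_sum (f := fun n => |Q n|) (fun _ _ => abs_nonneg _) (Finset.mem_range.2 (by omega : n < N + 1))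
    linarith

lemma kprod_bd {k : ℕ → ℝ} (hk : ∀ i, 0 ≤ k i ∧ k i ≤ 2) (s : Finset ℕ) (g : ℕ → ℕ) :
    0 ≤ ∏ p ∈ s, k (g p) ∧ ∏ p ∈ s, k (g p) ≤ 2 ^ s.card := by
  refine ⟨Finset.prod_nonneg fun p _ => (hk _).1, ?_⟩
  rw [← Finset.prod_const]
  exact Finset.prod_le_prod (fun p _ => (hk _).1) fun p _ => (hk _).2

/-- the coefficients are bounded -/
theorem rD_bd (hD : Ok D) : ∃ C : ℝ, 1 ≤ C ∧ ∀ T : ℝ, 1 < T → ∀ n, |rD D T n| ≤ C := by
  obtain ⟨C1, hC1, h1⟩ := Q_bd hD.Q1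
  obtain ⟨C2, hC2, h2⟩ := Q_bd hD.Q2
  have hC10 : 0 ≤ C1 := by linarith
  have hC20 : 0 ≤ C2 := by linarith
  obtain ⟨K, hK⟩ : ∃ K : ℕ, K = D.N1 + D.N2 := ⟨_, rfl⟩
  have hone : (1:ℝ) ≤ 2 ^ K := one_le_pow₀ (by norm_num)
  refine ⟨2 ^ K * ((2 ^ K * C1) * (2 ^ K * C2)), ?_, fun T hT n => ?_⟩
  · have a1 : (1:ℝ) ≤ 2 ^ K * C1 := by nlinarith
    have a2 : (1:ℝ) ≤ 2 ^ K * C2 := by nlinarith
    have a3 : (1:ℝ) ≤ (2 ^ K * C1) * (2 ^ K * C2) := by nlinarith
    nlinarith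
  · by_cases hn : rD D T n = 0
    · rw [hn, abs_zero]; positivity
    · obtain ⟨g0, g1, g2, g3, g4⟩ := rD_supp hD hT hn
      rw [← hK] at g3
      rw [rD_eq g1 g4]
      refine (Finset.abs_sum_le_sum_abs _ _).trans ?_
      have hterm : ∀ d ∈ n.divisors, |wtD D T D.k1 D.Q1 d * wtD D T D.k2 D.Q2 (n / d)| ≤ (2 ^ K * C1) * (2 ^ K * C2) := by
        intro d hd
        obtain ⟨hp, hdis⟩ := pf_split g1 hd
        have c1 : d.primeFactors.card ≤ K := le_trans (Finset.card_le_card (by rw [hp]; exact Finset.subset_union_left)) g3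
        have c2 : (n / d).primeFactors.card ≤ K := le_trans (Finset.card_le_card (by rw [hp]; exact Finset.subset_union_right)) g3
        unfold wtD
        rw [abs_mul, abs_mul, abs_mul]
        obtain ⟨k1a, k1b⟩ := kprod_bd hD.k1 d.primeFactors (ixD D T)
        obtain ⟨k2a, k2b⟩ := kprod_bd hD.k2 (n / d).primeFactors (ixD D T)
        rw [abs_of_nonneg k1a, abs_of_nonneg k2a]
        have p1 : (2:ℝ) ^ d.primeFactors.card ≤ 2 ^ K := pow_le_pow_right₀ (by norm_num) c1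
        have p2 : (2:ℝ) ^ (n / d).primeFactors.card ≤ 2 ^ K := pow_le_pow_right₀ (by norm_num) c2
        exact mul_le_mul (mul_le_mul (k1b.trans p1) (h1 _) (abs_nonneg _) (by positivity))
          (mul_le_mul (k2b.trans p2) (h2 _) (abs_nonneg _) (by positivity)) (by positivity) (by positivity)
      refine (Finset.sum_le_sum hterm).trans ?_
      rw [Finset.sum_const, nsmul_eq_mul]
      refine mul_le_mul_of_nonneg_right ?_ (by positivity)
      have hcd : n.divisors.card ≤ 2 ^ K := by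
        rw [Nat.card_divisors g0]
        calc ∏ p ∈ n.primeFactors, (n.factorization p + 1) ≤ ∏ _p ∈ n.primeFactors, 2 := by
              refine Finset.prod_le_prod' fun p _ => ?_
              have := g1.natFactorization_le_one p
              omega
          _ = 2 ^ n.primeFactors.card := by rw [Finset.prod_const]
          _ ≤ 2 ^ K := Nat.pow_le_pow_right (by norm_num) g3
      exact_mod_cast hcd

end

/-- the two supports are coprime -/
theorem copAB {T : ℝ} (hT : 1 < T) {m n : ℕ} (hm : rD dA T m ≠ 0) (hn : rD dB T n ≠ 0) : Nat.Coprime m n := by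
  obtain ⟨m0, _, _, _, m4⟩ := rD_supp okA hT hm
  obtain ⟨n0, _, _, _, n4⟩ := rD_supp okB hT hn
  apply Nat.coprime_of_dvd
  intro p hp hpm hpn
  have h1 := m4 p (Nat.mem_primeFactors.2 ⟨hp, hpm, m0⟩)
  have h2 := n4 p (Nat.mem_primeFactors.2 ⟨hp, hpn, n0⟩)
  have h3 : T ^ (1 / 168 : ℝ) < (p : ℝ) := h1.2.1
  have h4 := le_ixD okB hT hp.pos
  have h5 : (p : ℝ) ≤ T ^ (1 / 168 : ℝ) := by
    refine h4.trans (Real.rpow_le_rpow_of_exponent_le hT.le ?_)
    have h6 : ((ixD dB T p : ℕ) : ℝ) ≤ 6 := by exact_mod_cast h2.2.2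
    have h7 : (dB.S : ℝ) = 1008 := by unfold dB; norm_num
    rw [h7]
    linarith
  linarith

lemma lenA {T : ℝ} (hT : 1 < T) {n : ℕ} (h : rD dA T n ≠ 0) : (n : ℝ) ≤ T ^ (40 / 84 : ℝ) := by
  have h1 := (rD_supp okA hT h).2.2.1
  have e : ((dA.N1 : ℝ) + dA.N2) / dA.S = 40 / 84 := by unfold dA; norm_num
  rwa [e] at h1

lemma lenB {T : ℝ} (hT : 1 < T) {n : ℕ} (h : rD dB T n ≠ 0) : (n : ℝ) ≤ T ^ (23 / 1008 : ℝ) := by
  have h1 := (rD_supp okB hT h).2.2.1
  have e : ((dB.N1 : ℝ) + dB.N2) / dB.S = 23 / 1008 := by unfold dB; norm_num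
  rwa [e] at h1

/-- support of the resonator -/
theorem rr2_supp {T : ℝ} (hT : 1 < T) {n : ℕ} (h : rr2 T n ≠ 0) :
    n ≠ 0 ∧ Squarefree n ∧ (n : ℝ) ≤ T ^ (503 / 1008 : ℝ) ∧ ∀ p ∈ n.primeFactors, Big T p := by
  have hT0 : 0 < T := by linarith
  unfold rr2 conv at h
  obtain ⟨d, hd, hne⟩ := Finset.exists_ne_zero_of_sum_ne_zero h
  obtain ⟨h2, h3⟩ := Nat.mem_divisors.1 hd
  obtain ⟨q, hq⟩ := h2
  have hd0 : 0 < d := Nat.pos_of_ne_zero (by rintro rfl; rw [zero_mul] at hq; exact h3 hq)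
  have hqn : n / d = q := by rw [hq]; exact Nat.mul_div_cancel_left q hd0
  rw [hqn] at hne
  have hA : rD dA T d ≠ 0 := left_ne_zero_of_mul hne
  have hB : rD dB T q ≠ 0 := right_ne_zero_of_mul hne
  obtain ⟨a0, a1, a2, a3, a4⟩ := rD_supp okA hT hA
  obtain ⟨b0, b1, b2, b3, b4⟩ := rD_supp okB hT hB
  have hc := copAB hT hA hB
  refine ⟨h3, ?_, ?_, ?_⟩
  · rw [hq]
    exact (Nat.squarefree_mul hc).2 ⟨a1, b1⟩
  · rw [hq]
    push_cast
    calc (d : ℝ) * q ≤ T ^ (40 / 84 : ℝ) * T ^ (23 / 1008 : ℝ) :=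
          mul_le_mul (lenA hT hA) (lenB hT hB) (Nat.cast_nonneg _) (by positivity)
      _ = T ^ (503 / 1008 : ℝ) := by rw [← Real.rpow_add hT0]; norm_num
  · intro p hp
    rw [hq, hc.primeFactors_mul, Finset.mem_union] at hp
    rcases hp with hp | hp
    · exact (a4 p hp).big okA hT
    · exact (b4 p hp).big okB hT

/-- the resonator is bounded -/
theorem rr2_bd : ∃ C : ℝ, 1 ≤ C ∧ ∀ T : ℝ, 1 < T → ∀ n, |rr2 T n| ≤ C := by
  classical
  obtain ⟨C1, hC1, h1⟩ := rD_bd okA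
  obtain ⟨C2, hC2, h2⟩ := rD_bd okB
  have hC10 : 0 ≤ C1 := by linarith
  have hC20 : 0 ≤ C2 := by linarith
  refine ⟨C1 * C2, by nlinarith, fun T hT n => ?_⟩
  -- at most one divisor contributes
  by_cases hex : ∃ d ∈ n.divisors, rD dA T d * rD dB T (n / d) ≠ 0
  · obtain ⟨d, hd, hne⟩ := hex
    have huniq : ∀ e ∈ n.divisors, e ≠ d → rD dA T e * rD dB T (n / e) = 0 := by
      intro e he hed
      by_contra hne2
      apply hed
      -- both `d` and `e` are the product of the primes of kind A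
      have key : ∀ x ∈ n.divisors, rD dA T x * rD dB T (n / x) ≠ 0 →
          x = ∏ p ∈ n.primeFactors.filter (fun p : ℕ => T ^ (1 / 168 : ℝ) < (p : ℝ)), p := by
        intro x hx hxne
        have hA : rD dA T x ≠ 0 := left_ne_zero_of_mul hxne
        have hB : rD dB T (n / x) ≠ 0 := right_ne_zero_of_mul hxne
        obtain ⟨a0, a1, a2, a3, a4⟩ := rD_supp okA hT hA
        obtain ⟨b0, b1, b2, b3, b4⟩ := rD_supp okB hT hB
        have hc := copAB hT hA hB
        have hnx : n = x * (n / x) := (Nat.mul_div_cancel' (Nat.dvd_of_mem_divisors hx)).symm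
        conv_lhs => rw [← Nat.prod_primeFactors_of_squarefree a1]
        congr 1
        ext p
        rw [Finset.mem_filter]
        constructor
        · intro hp
          exact ⟨Nat.primeFactors_mono (Nat.dvd_of_mem_divisors hx) (Nat.mem_divisors.1 hx).2 hp, (a4 p hp).2.1⟩
        · rintro ⟨hp, hgt⟩
          rw [hnx, hc.primeFactors_mul, Finset.mem_union] at hp
          rcases hp with hp | hp
          · exact hp
          · exfalso
            have h4 := le_ixD okB hT (b4 p hp).pos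
            have h5 : (p : ℝ) ≤ T ^ (1 / 168 : ℝ) := by
              refine h4.trans (Real.rpow_le_rpow_of_exponent_le hT.le ?_)
              have h6 : ((ixD dB T p : ℕ) : ℝ) ≤ 6 := by exact_mod_cast (b4 p hp).2.2
              have h7 : (dB.S : ℝ) = 1008 := by unfold dB; norm_num
              rw [h7]
              linarith
            linarith
      rw [key d hd hne, key e he hne2]
    unfold rr2 conv
    rw [Finset.sum_eq_single_of_mem d hd huniq, abs_mul]
    exact mul_le_mul (h1 T hT d) (h2 T hT _) (abs_nonneg _) hC10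
  · push Not at hex
    unfold rr2 conv
    rw [Finset.sum_eq_zero hex, abs_zero]
    positivity

end Pool.Agent.Helper25.HV
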