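import Pool.Agent.Helper69.HG.Stm

/-!
# Large gaps, `λ = 13/5`: the resonator with three factors (definitions and statements of the blocks)

Everything of `Helper69/HG/{Defs,Mol,Stm}` stays; new are the resonator `rr2`, the lengths, the blocks `RS2, NUM2, FA2,
UIR, UI2, RM2, RD2, AFE2` and the result `HallGaps2`.
-/

open Finset Polynomial MeasureTheory Filter Topology

namespace Pool.Agent.Helper25.HV

open Pool.Agent.Helper69.HG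

/-- data of a resonator with two kinds of primes -/
structure Dat where
  /-- the grid: the index of `p` is `⌈S log p / log T⌉` -/
  S : ℕ
  /-- the primes are above `T^lo` -/
  lo : ℝ
  /-- largest index -/
  B : ℕ
  /-- bounds for the total index of the two kinds -/
  N1 : ℕ
  N2 : ℕ
  /-- prime weights by index -/
  k1 : ℕ → ℝ
  k2 : ℕ → ℝ
  /-- outer weights by total index -/
  Q1 : ℕ → ℝ
  Q2 : ℕ → ℝ

/-- the conditions on the data -/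
structure Ok (D : Dat) : Prop where
  S0 : 1 ≤ D.S
  lo0 : 1 / 4032 ≤ D.lo
  loS : D.lo ≤ 1 / D.S
  B1 : 1 ≤ D.B
  BS : 3 * D.B ≤ D.S
  N1 : D.N1 ≤ 64
  N2 : D.N2 ≤ D.N1
  NS : 2 * (D.N1 + D.N2) ≤ D.S
  k1 : ∀ i, 0 ≤ D.k1 i ∧ D.k1 i ≤ 2
  k2 : ∀ i, 0 ≤ D.k2 i ∧ D.k2 i ≤ 2
  Q1 : ∀ n, D.N1 < n → D.Q1 n = 0
  Q2 : ∀ n, D.N2 < n → D.Q2 n = 0

def K1L : List ℕ := [0, 8, 7, 9, 11, 11, 11, 12, 13, 13, 14, 14, 14, 15, 15, 14, 14, 14, 14, 14, 14, 14, 14, 14, 14, 14, 14,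
  13, 12]
def K2L : List ℕ := [0, 8, 8, 9, 9, 10, 11, 10, 10, 11, 10, 10, 10]
def K3L : List ℕ := [0, 12, 16, 18, 19, 19, 19]
def Q1L : List ℤ := [-4, -3, -8, -9, -10, -11, -10, -9, -9, -9, -12, -16, -45, -6, -5, 4, -18, -5, -1, 1, 4, 13, 12, -12, -54,
  -88, -121, 87, 1000]
def Q2L : List ℤ := [18, 2, -14, -13, -20, -27, -51, -46, -62, -137, -216, 52, 1000]
def Q3L : List ℤ := [0, 0, -2, -3, -2, 0, 3, 7, 13, 10, -11, -15, -22, -29, -28, 39, 176, 16, 21, 20, -29, -325, -575, 1000]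

/-- large primes: `(T^(1/168), T^(1/3)]`, two kinds -/
noncomputable def dA : Dat where
  S := 84
  lo := 1 / 168
  B := 28
  N1 := 28
  N2 := 12
  k1 i := (K1L.getD i 0 : ℝ) / 10
  k2 i := (K2L.getD i 0 : ℝ) / 10
  Q1 n := (Q1L.getD n 0 : ℤ)
  Q2 n := (Q2L.getD n 0 : ℤ)

/-- small primes: `(T^(1/4032), T^(1/168)]`, one kind -/
noncomputable def dB : Dat where
  S := 1008
  lo := 1 / 4032
  B := 6
  N1 := 23
  N2 := 0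
  k1 i := (K3L.getD i 0 : ℝ) / 10
  k2 _ := 0
  Q1 n := (Q3L.getD n 0 : ℤ)
  Q2 n := if n = 0 then 1 else 0

/-- index of a prime -/
noncomputable def ixD (D : Dat) (T : ℝ) (p : ℕ) : ℕ := ⌈D.S * Real.log p / Real.log T⌉₊

/-- admissible primes: `T^lo < p ≤ T^(B/S)` -/
def Adm (D : Dat) (T : ℝ) (p : ℕ) : Prop := p.Prime ∧ T ^ D.lo < (p : ℝ) ∧ ixD D T p ≤ D.B

/-- weight of a number in one kind: `∏ k(index) · Q(total index)` -/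
noncomputable def wtD (D : Dat) (T : ℝ) (k Q : ℕ → ℝ) (n : ℕ) : ℝ :=
  (∏ p ∈ n.primeFactors, k (ixD D T p)) * Q (∑ p ∈ n.primeFactors, ixD D T p)

open Classical in
/-- resonator coefficients of the data `D` -/
noncomputable def rD (D : Dat) (T : ℝ) (n : ℕ) : ℝ :=
  if Squarefree n ∧ ∀ p ∈ n.primeFactors, Adm D T p then
    ∑ d ∈ n.divisors, wtD D T D.k1 D.Q1 d * wtD D T D.k2 D.Q2 (n / d) else 0

/-- the resonator -/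
noncomputable def rr2 (T : ℝ) (n : ℕ) : ℝ := conv (rD dA T) (rD dB T) n

/-- length of the resonator, of the mollifier, of the product -/
noncomputable def XR2 (T : ℝ) : ℕ := ⌊T ^ (503 / 1008 : ℝ)⌋₊
noncomputable def XM2 (T : ℝ) : ℕ := ⌊T ^ (1 / 4032 : ℝ)⌋₊
noncomputable def XX2 (T : ℝ) : ℕ := ⌊T ^ (2013 / 4032 : ℝ)⌋₊

/-! ### the limit -/

/-- the block integral -/
noncomputable def EiD (D : Dat) (i : ℕ) (y : ℝ) : ℝ :=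
  ∫ u in (max D.lo (((i : ℝ) - 1) / D.S))..((i : ℝ) / D.S), Real.exp (-(y * u)) / u

/-- `∑_{1 ≤ i ≤ B} u_i X^i` -/
noncomputable def polD (D : Dat) (u : ℕ → ℝ) : ℝ[X] := ∑ i ∈ Icc 1 D.B, C (u i) * X ^ i

/-- `[X^n] exp(∑ w_i E_i(y) X^i)` -/
noncomputable def GD (D : Dat) (w : ℕ → ℝ) (y : ℝ) (n : ℕ) : ℝ := expc (polD D fun i => w i * EiD D i y) n

noncomputable def P1D (D : Dat) (z : ℝ) (s : ℕ) : ℝ := ∑ m ∈ range (D.N1 + 1), GD D D.k1 z m * D.Q1 (s + m)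
noncomputable def P2D (D : Dat) (z : ℝ) (s : ℕ) : ℝ := ∑ m ∈ range (D.N2 + 1), GD D D.k2 z m * D.Q2 (s + m)

/-- the limit of the quadratic forms (`z = y` for the least common multiple, `z = 0` for the greatest common divisor) -/
noncomputable def LLD (D : Dat) (y z : ℝ) : ℝ :=
  ∑ a ∈ range (D.N1 + 1), ∑ b ∈ range (D.N2 + 1), ∑ c ∈ range (D.N2 + 1), ∑ d ∈ range (D.N2 + 1),
    GD D (fun i => D.k1 i * D.k1 i) y a * GD D (fun i => D.k1 i * D.k2 i) y b * GD D (fun i => D.k1 i * D.k2 i) y c *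
      GD D (fun i => D.k2 i * D.k2 i) y d *
        (P1D D z (a + b) * P1D D z (a + c) * P2D D z (c + d) * P2D D z (b + d))

noncomputable def AL (x : ℝ) : ℝ := LLD dA (2 * x) (2 * x) * LLD dB (2 * x) (2 * x)
noncomputable def AG (x : ℝ) : ℝ := LLD dA (2 * x) 0 * LLD dB (2 * x) 0

/-- the limit functional at `σ = 1/2 + x/log T` -/
noncomputable def Phi2 (x : ℝ) : ℝ := (AL x - Real.exp (-(2 * x)) * AG x) / (2 * x)

/-- block RS2: the resonator sums -/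
def RS2 : Prop := ∀ x : ℝ, 0 < x →
  Tendsto (fun T : ℝ => Ql (XR2 T) (rr2 T) (1 / 2 + x / Real.log T)) atTop (𝓝 (AL x)) ∧
  Tendsto (fun T : ℝ => Qg (XR2 T) (rr2 T) (1 / 2 + x / Real.log T)) atTop (𝓝 (AG x))

/-- block NUM2: the numbers (`λ = 13/5`, `ν₀ = 97/100`, `1/(4λ²) = 25/676`) -/
def NUM2 : Prop := ∃ m₀ m₁ m₂ C : ℝ, 0 < m₀ ∧ (97 / 100) ^ 2 * m₀ - 2 * (97 / 100) * m₁ + m₂ < (25 / 676) * m₀ ∧
  ∀ x : ℝ, 0 < x → x ≤ 1 / 2 → |Phi2 x - (m₀ - 2 * x * m₁ + 2 * x ^ 2 * m₂)| ≤ C * x ^ 3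

/-! ### RS2 in parts -/

/-- the primes of the resonator -/
noncomputable def AAD (D : Dat) (T : ℝ) : Finset ℕ := open Classical in (Finset.Icc 1 ⌊T⌋₊).filter (fun p => Adm D T p)

/-- total index of the primes with state `θ` -/
noncomputable def vst (D : Dat) (T : ℝ) {A : Finset ℕ} (e : A → Fin 3 × Fin 3) (θ : Fin 3 × Fin 3) : ℕ :=
  ∑ p : A, if e p = θ then ixD D T p else 0

/-- the weight of a total index: states `(i, j)`: kind `i` in the first number and kind `j` in the second (`0` = absent) -/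
noncomputable def FD (D : Dat) (v : Fin 3 × Fin 3 → ℕ) : ℝ :=
  D.Q1 (v (1, 1) + v (1, 2) + v (1, 0)) * D.Q2 (v (2, 1) + v (2, 2) + v (2, 0)) *
    (D.Q1 (v (1, 1) + v (2, 1) + v (0, 1)) * D.Q2 (v (1, 2) + v (2, 2) + v (0, 2)))

/-- the prime weight of one kind by index -/
noncomputable def kk (D : Dat) (T : ℝ) (i : Fin 3) (p : ℕ) : ℝ :=
  if i = 0 then 1 else if i = 1 then D.k1 (ixD D T p) else D.k2 (ixD D T p)

/-- the local weight of a state (`σ` for common primes, `τ` for the others) -/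
noncomputable def WD (D : Dat) (T σ τ : ℝ) (θ : Fin 3 × Fin 3) (p : ℕ) : ℝ :=
  if θ = (0, 0) then 1 else kk D T θ.1 p * kk D T θ.2 p *
    (p : ℝ) ^ (-2 * (if θ.1 ≠ 0 ∧ θ.2 ≠ 0 then σ else τ))

/-- the sum over the configurations -/
noncomputable def CFG (D : Dat) (T σ τ : ℝ) : ℝ :=
  ∑ e : (AAD D T) → Fin 3 × Fin 3, (∏ p, WD D T σ τ (e p) p) * FD D (vst D T e)

/-- block RSc: both quadratic forms as sums over configurations -/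
def RSc : Prop := ∀ D : Dat, Ok D → ∀ T : ℝ, 1 < T → ∀ X : ℕ, (∀ n, rD D T n ≠ 0 → n ≤ X) → ∀ σ : ℝ,
  Ql X (rD D T) σ = CFG D T σ σ ∧ Qg X (rD D T) σ = CFG D T σ (1 / 2)

/-- block RSd: the limit of the sum over the configurations -/
def RSd : Prop := ∀ D : Dat, Ok D → ∀ x : ℝ, 0 < x →
  Tendsto (fun T : ℝ => CFG D T (1 / 2 + x / Real.log T) (1 / 2 + x / Real.log T)) atTop (𝓝 (LLD D (2 * x) (2 * x))) ∧
  Tendsto (fun T : ℝ => CFG D T (1 / 2 + x / Real.log T) (1 / 2)) atTop (𝓝 (LLD D (2 * x) 0))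

/-! ### the full-tuple polynomial -/

/-- prime sum over the primes of index `i` -/
noncomputable def PbD (D : Dat) (T : ℝ) (i : ℕ) (t : ℝ) : ℂ :=
  ∑ p ∈ (AAD D T).filter (fun p => ixD D T p = i), (p : ℂ) ^ (-(1 / 2 + Complex.I * t) : ℂ)

/-- all tuples of primes (not only distinct ones) of one kind -/
noncomputable def RFf (D : Dat) (N : ℕ) (k Q : ℕ → ℝ) (T t : ℝ) : ℂ :=
  ∑ m ∈ Finset.range (N + 1), ((1 / m.factorial : ℝ) : ℂ) *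
    ∑ i ∈ Fintype.piFinset (fun _ : Fin m => Finset.Icc 1 D.B),
      (((∏ j, k (i j)) * Q (∑ j, i j) : ℝ) : ℂ) * ∏ j, PbD D T (i j) t

/-- the full-tuple version of the resonator -/
noncomputable def RF2 (T t : ℝ) : ℂ :=
  RFf dA dA.N1 dA.k1 dA.Q1 T t * RFf dA dA.N2 dA.k2 dA.Q2 T t * RFf dB dB.N1 dB.k1 dB.Q1 T t

/-- primes of the resonator -/
def Big (T : ℝ) (p : ℕ) : Prop := T ^ (1 / 4032 : ℝ) < (p : ℝ) ∧ (p : ℝ) ≤ T ^ (1 / 3 : ℝ)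

/-- block RD2: `RF2` is the resonator plus a polynomial over non-squarefree numbers -/
def RD2 : Prop := ∃ C T₀ : ℝ, 0 < C ∧ ∀ T : ℝ, T₀ ≤ T → ∃ e : ℕ → ℂ, (∀ n, ‖e n‖ ≤ C) ∧
  (∀ n, e n ≠ 0 → n ≠ 0 ∧ ¬ Squarefree n ∧ ∀ p ∈ n.primeFactors, Big T p) ∧
  ∀ t : ℝ, RF2 T t = DP (XR2 T) (fun n => (rr2 T n : ℂ) + e n) t

/-- block RM2: mean squares of monomials of total index `≤ S` -/
def RM2 : Prop := ∀ D : Dat, Ok D → ∃ C T₀ : ℝ, 0 < C ∧ ∀ T : ℝ, T₀ ≤ T → ∀ (k : ℕ) (i : Fin k → ℕ),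
  (∀ j, 1 ≤ i j ∧ i j ≤ D.B) → ∑ j, i j ≤ D.S → ∫ t in T..(2 * T), (∏ j, ‖PbD D T (i j) t‖) ^ 2 ≤ C * T

/-- block UIR: uniform integrability of the main part -/
def UIR : Prop := ∀ C ε' : ℝ, 0 ≤ C → 0 < ε' → ∃ δ T₀ : ℝ, 0 < δ ∧ ∀ T : ℝ, T₀ ≤ T → ∀ A : ℝ → ℂ, Continuous A →
  ∫ t in T..(2 * T), ‖A t‖ ^ 4 ≤ C * T → ∀ G : Set ℝ, MeasurableSet G → G ⊆ Set.Icc T (2 * T) →
    volume G ≤ ENNReal.ofReal (δ * T) → ∫⁻ t in G, ‖A t * RF2 T t‖ₑ ^ 2 ≤ ENNReal.ofReal (ε' * T)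

/-! ### the rest -/

/-- block AFE2: the smooth approximate functional equation with a nearer second cut -/
def AFE2 : Prop := ∀ c : ℝ, 0 < c → ∃ d : ℝ, 0 < d ∧ d ≤ 1 / 4032 ∧ d ≤ c ∧ ∃ F F₂ : ℝ → ℂ,
  IsCut (1 / 2 - d) (1 / 2 + d) F ∧ IsCut (2018 / 4032) (2019 / 4032) F₂ ∧ d * (∫ ξ : ℝ, ‖F ξ‖) ^ 2 ≤ c ∧
  ∃ C T₀ : ℝ, 0 < C ∧ ∀ T : ℝ, T₀ ≤ T →
    ∀ t ∈ Set.Icc T (2 * T), ‖ze t‖ ≤ 2 * ‖BF F T 0 t‖ +
      C / Real.log T * (∫ ξ : ℝ, |ξ| * ‖F ξ‖ * ‖BF F₂ T ξ t‖) + C * T ^ (-(1 / 4) : ℝ)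

/-- the function: `ζ(1/2+it) ∑_{h ≤ X} (a * r)(h) h^(-1/2-it)` -/
noncomputable def fg2 (T : ℝ) (a : ℕ → ℝ) (t : ℝ) : ℂ := ze t * DP (XX2 T) (fun n => (conv a (rr2 T) n : ℂ)) t

/-- block UI2: small sets carry a small part of the mass -/
def UI2 : Prop := ∀ c₁ : ℝ, 0 < c₁ → ∃ b₀ : ℕ, ∀ b ≥ b₀, ∃ ε₀ : ℝ, 0 < ε₀ ∧ ∀ ε : ℝ, 0 < ε → ε ≤ ε₀ →
  ∃ δ T₀ : ℝ, 0 < δ ∧ ∀ T : ℝ, T₀ ≤ T → ∀ a : ℕ → ℝ, IsCM T ε b a → ∀ G : Set ℝ, MeasurableSet G →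
    G ⊆ Set.Icc T (2 * T) → volume G ≤ ENNReal.ofReal (δ * T) → ∫ t in G, ‖fg2 T a t‖ ^ 2 ≤ c₁ * T / ε

/-- `λ · 2π/log T`, `λ = 13/5` -/
noncomputable def DD2 (T : ℝ) : ℝ := 13 / 5 * (2 * Real.pi / Real.log T)

/-- block FA2: the mass on the long gaps -/
def FA2 : Prop := ∀ η : ℝ, 0 < η → η ≤ 1 → ∃ c₁ : ℝ, 0 < c₁ ∧ ∃ b₀ : ℕ, ∀ b ≥ b₀, ∃ ε₀ : ℝ, 0 < ε₀ ∧
  ∀ ε : ℝ, 0 < ε → ε ≤ ε₀ → ∃ T₀ : ℝ, ∀ T : ℝ, T₀ ≤ T → ∀ a : ℕ → ℝ, IsCM T ε b a →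
    c₁ * T / ε ≤ ∫ t in Pool.Agent.Helper49.HG.LongSet Zl (DD2 T) ∩ Set.Icc T ((1 + η) * T), ‖fg2 T a t‖ ^ 2

/-- the result -/
def HallGaps2 : Prop := ∀ η : ℝ, 0 < η → ∃ c T₀ : ℝ, 0 < c ∧ ∀ T : ℝ, T₀ ≤ T →
  ∃ S : Finset ℝ, c * (T * Real.log T) ≤ S.card ∧ ∀ γ ∈ S, γ ∈ Set.Icc T ((1 + η) * T) ∧ riemannZeta (1 / 2 + γ * Complex.I) = 0 ∧
    ∀ u ∈ Set.Ioo γ (γ + 13 / 5 * (2 * Real.pi / Real.log T)), riemannZeta (1 / 2 + u * Complex.I) ≠ 0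

end Pool.Agent.Helper25.HV
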