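import Pool.Agent.Helper25.HV.Base
import Pool.Agent.Helper25.HG.U1
import Pool.Agent.Helper85.SV.Main

/-!
# HV: numbers whose prime factors are large; the convolution inequality
-/

open Finset MeasureTheory Filter Topology Set

namespace Pool.Agent.Helper25.HV

open Pool.Agent.Helper69.HG Pool.Agent.Helper25.HG Pool.Agent.Helper85.SV

/-- all prime factors are above `T^(1/4032)` -/
def RgV (T : ℝ) (n : ℕ) : Prop := n ≠ 0 ∧ ∀ p ∈ n.primeFactors, T ^ (1 / 4032 : ℝ) < (p : ℝ)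

/-- all prime factors are primes of the resonator -/
def RgW (T : ℝ) (n : ℕ) : Prop := n ≠ 0 ∧ ∀ p ∈ n.primeFactors, Big T p

lemma RgW.rg {T : ℝ} {n : ℕ} (h : RgW T n) : RgV T n := ⟨h.1, fun p hp => (h.2 p hp).1⟩

/-- the bound for the number of divisors -/
lemma card_roughK : ∃ K : ℕ, 1 ≤ K ∧ ∀ T : ℝ, 1 < T → ∀ N : ℕ, 1 ≤ N → (N : ℝ) ≤ T → ∀ S : Finset ℕ,
    (∀ h ∈ S, h ∣ N ∧ RgV T h) → S.card ≤ K := by
  classical
  obtain ⟨M, hM⟩ : ∃ M : ℕ, M = 4032 := ⟨_, rfl⟩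
  refine ⟨2 ^ M, Nat.one_le_two_pow, fun T hT N hN hNT S hS => ?_⟩
  have hN0 : N ≠ 0 := by omega
  set A := N.primeFactors.filter (fun p : ℕ => T ^ (1 / 4032 : ℝ) < (p : ℝ)) with hA
  set f := N.factorization with hf
  set R : ℕ := ∏ p ∈ A, p ^ f p with hR
  have hAp : ∀ p ∈ A, p.Prime := fun p hp => Nat.prime_of_mem_primeFactors (Finset.mem_filter.1 hp).1
  have hR0 : R ≠ 0 := by
    rw [hR, Finset.prod_ne_zero_iff]
    exact fun p hp => pow_ne_zero _ (hAp p hp).ne_zero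
  have hRN : R ∣ N := by
    conv_rhs => rw [← Nat.factorization_prod_pow_eq_self hN0]
    rw [Finsupp.prod, Nat.support_factorization]
    exact Finset.prod_dvd_prod_of_subset _ _ _ (Finset.filter_subset _ _)
  have hfR : ∀ p ∈ A, R.factorization p = f p := by
    intro p hp
    rw [hR, Nat.factorization_prod (fun q hq => pow_ne_zero _ (hAp q hq).ne_zero), Finsupp.finset_sum_apply,
      Finset.sum_eq_single p]
    · rw [(hAp p hp).factorization_pow, Finsupp.single_eq_same]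
    · intro q hq hqp
      rw [(hAp q hq).factorization_pow, Finsupp.single_eq_of_ne]
      exact fun h => hqp h.symm
    · exact fun h => absurd hp h
  have hsub : S ⊆ R.divisors := by
    intro h hh
    obtain ⟨h1, h2, h3⟩ := hS h hh
    rw [Nat.mem_divisors]
    refine ⟨?_, hR0⟩
    rw [← Nat.factorization_le_iff_dvd h2 hR0]
    intro p
    by_cases hp : p ∈ h.primeFactors
    · have hpA : p ∈ A := by
        rw [hA, Finset.mem_filter]
        exact ⟨Nat.primeFactors_mono h1 hN0 hp, h3 p hp⟩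
      rw [hfR p hpA]
      exact (Nat.factorization_le_iff_dvd h2 hN0).2 h1 p
    · rw [← Nat.support_factorization, Finsupp.notMem_support_iff] at hp
      rw [hp]
      exact Nat.zero_le _
  have hcard : R.divisors.card ≤ 2 ^ (∑ p ∈ A, f p) := by
    rw [Nat.card_divisors hR0, ← Finset.prod_pow_eq_pow_sum]
    have hpf : R.primeFactors ⊆ A := by
      intro p hp
      obtain ⟨hp1, hp2, _⟩ := Nat.mem_primeFactors.1 hp
      rw [hR, hp1.prime.dvd_finset_prod_iff] at hp2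
      obtain ⟨q, hq, hpq⟩ := hp2
      have := (Nat.prime_dvd_prime_iff_eq hp1 (hAp q hq)).1 (hp1.dvd_of_dvd_pow hpq)
      rw [this]
      exact hq
    calc ∏ p ∈ R.primeFactors, (R.factorization p + 1) ≤ ∏ p ∈ R.primeFactors, 2 ^ f p := by
          refine Finset.prod_le_prod' fun p hp => ?_
          rw [hfR p (hpf hp)]
          exact Nat.lt_two_pow_self
      _ ≤ ∏ p ∈ A, 2 ^ f p :=
          Finset.prod_le_prod_of_subset_of_one_le' hpf fun p _ _ => Nat.one_le_two_pow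
  have hsum : ∑ p ∈ A, f p ≤ M := by
    by_contra hcon
    rw [not_le] at hcon
    have hT0 : 0 < T := by linarith
    have h1 : (T ^ (1 / 4032 : ℝ)) ^ (∑ p ∈ A, f p) ≤ (R : ℝ) := by
      rw [hR, Nat.cast_prod, ← Finset.prod_pow_eq_pow_sum]
      refine Finset.prod_le_prod (fun p _ => by positivity) fun p hp => ?_
      rw [Nat.cast_pow]
      exact pow_le_pow_left₀ (by positivity) (Finset.mem_filter.1 hp).2.le _
    have h2 : (R : ℝ) ≤ T := by
      have : (R : ℝ) ≤ N := by exact_mod_cast Nat.le_of_dvd (by omega) hRN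
      linarith
    have h3 : T < (T ^ (1 / 4032 : ℝ)) ^ (∑ p ∈ A, f p) := by
      rw [← Real.rpow_natCast, ← Real.rpow_mul hT0.le]
      conv_lhs => rw [← Real.rpow_one T]
      apply Real.rpow_lt_rpow_of_exponent_lt hT
      have h4 : ((M : ℕ) : ℝ) < ((∑ p ∈ A, f p : ℕ) : ℝ) := by exact_mod_cast hcon
      have h5 : ((M : ℕ) : ℝ) = 4032 := by rw [hM]; norm_num
      rw [h5] at h4
      linarith
    linarith
  exact (Finset.card_le_card hsub).trans (hcard.trans (Nat.pow_le_pow_right (by norm_num) hsum))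

/-- the convolution inequality -/
theorem conv_sqV : ∃ K : ℝ, 1 ≤ K ∧ ∀ T : ℝ, 1 < T → ∀ e r : ℕ → ℂ, (∀ h, r h ≠ 0 → RgV T h) → ∀ Z : ℕ, (Z : ℝ) ≤ T →
    ∑ N ∈ Finset.Icc 1 Z, ‖cc e r N‖ ^ 2 / N ≤
      K * (∑ n ∈ Finset.Icc 1 Z, ‖e n‖ ^ 2 / n) * ∑ h ∈ Finset.Icc 1 Z, ‖r h‖ ^ 2 / h := by
  classical
  obtain ⟨K, hK1, hK⟩ := card_roughK
  refine ⟨(K : ℝ), by exact_mod_cast hK1, fun T hT e r hr Z hZ => ?_⟩
  have h1 : ∀ N ∈ Finset.Icc 1 Z, ‖cc e r N‖ ^ 2 / N ≤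
      K * ∑ x ∈ N.divisorsAntidiagonal, (‖e x.1‖ ^ 2 / x.1) * (‖r x.2‖ ^ 2 / x.2) := by
    intro N hN
    obtain ⟨hN1, hNZ⟩ := Finset.mem_Icc.1 hN
    have hN0 : N ≠ 0 := by omega
    have hNT : (N : ℝ) ≤ T := by
      have : (N : ℝ) ≤ Z := by exact_mod_cast hNZ
      linarith
    set S := N.divisorsAntidiagonal.filter (fun x => r x.2 ≠ 0) with hS
    have hScard : (S.card : ℝ) ≤ K := by
      have hinj : Set.InjOn (fun x : ℕ × ℕ => x.2) (S : Set (ℕ × ℕ)) := by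
        intro x hx y hy hxy
        simp only at hxy
        have hx1 := (Nat.mem_divisorsAntidiagonal.1 (Finset.mem_filter.1 hx).1)
        have hy1 := (Nat.mem_divisorsAntidiagonal.1 (Finset.mem_filter.1 hy).1)
        have h2 : x.2 ≠ 0 := by rintro h; rw [h, mul_zero] at hx1; exact hN0 hx1.1.symm
        refine Prod.ext ?_ hxy
        have : x.1 * x.2 = y.1 * x.2 := by rw [hx1.1, hxy, hy1.1]
        exact Nat.eq_of_mul_eq_mul_right (Nat.pos_of_ne_zero h2) this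
      have := hK T hT N hN1 hNT (S.image (fun x => x.2)) (by
        intro h hh
        obtain ⟨x, hx, rfl⟩ := Finset.mem_image.1 hh
        obtain ⟨hx1, hx2⟩ := Finset.mem_filter.1 hx
        exact ⟨⟨x.1, by rw [mul_comm]; exact (Nat.mem_divisorsAntidiagonal.1 hx1).1.symm⟩, hr _ hx2⟩)
      rw [Finset.card_image_of_injOn hinj] at this
      exact_mod_cast this
    have h2 : cc e r N = ∑ x ∈ S, e x.1 * r x.2 := by
      rw [cc_anti, hS, Finset.sum_filter]
      refine Finset.sum_congr rfl fun x _ => ?_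
      split_ifs with h
      · rfl
      · rw [not_not] at h
        rw [h, mul_zero]
    have h3 : ‖cc e r N‖ ^ 2 ≤ (S.card : ℝ) * ∑ x ∈ S, (‖e x.1‖ * ‖r x.2‖) ^ 2 := by
      rw [h2]
      have h4 : ‖∑ x ∈ S, e x.1 * r x.2‖ ≤ ∑ x ∈ S, ‖e x.1‖ * ‖r x.2‖ := by
        refine (norm_sum_le _ _).trans (Finset.sum_le_sum fun x _ => ?_)
        rw [norm_mul]
      have h5 : (∑ x ∈ S, ‖e x.1‖ * ‖r x.2‖) ^ 2 ≤ (S.card : ℝ) * ∑ x ∈ S, (‖e x.1‖ * ‖r x.2‖) ^ 2 :=
        sq_sum_le_card_mul_sum_sq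
      exact (pow_le_pow_left₀ (norm_nonneg _) h4 2).trans h5
    have hNr : (0:ℝ) < N := by exact_mod_cast hN1
    rw [div_le_iff₀ hNr]
    have h6 : ∑ x ∈ S, (‖e x.1‖ * ‖r x.2‖) ^ 2 ≤
        (∑ x ∈ N.divisorsAntidiagonal, (‖e x.1‖ ^ 2 / x.1) * (‖r x.2‖ ^ 2 / x.2)) * N := by
      rw [Finset.sum_mul]
      calc ∑ x ∈ S, (‖e x.1‖ * ‖r x.2‖) ^ 2 ≤ ∑ x ∈ N.divisorsAntidiagonal, (‖e x.1‖ * ‖r x.2‖) ^ 2 :=
            Finset.sum_le_sum_of_subset_of_nonneg (Finset.filter_subset _ _) fun _ _ _ => by positivity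
        _ = ∑ x ∈ N.divisorsAntidiagonal, (‖e x.1‖ ^ 2 / x.1) * (‖r x.2‖ ^ 2 / x.2) * N := by
            refine Finset.sum_congr rfl fun x hx => ?_
            have hx1 := (Nat.mem_divisorsAntidiagonal.1 hx).1
            have h7 : x.1 ≠ 0 := by rintro h; rw [h, zero_mul] at hx1; exact hN0 hx1.symm
            have h8 : x.2 ≠ 0 := by rintro h; rw [h, mul_zero] at hx1; exact hN0 hx1.symm
            have h9 : (N:ℝ) = x.1 * x.2 := by rw [← hx1]; push_cast; ring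
            have h10 : (x.1:ℝ) ≠ 0 := by exact_mod_cast h7
            have h11 : (x.2:ℝ) ≠ 0 := by exact_mod_cast h8
            rw [h9]
            field_simp
    have h7 : 0 ≤ ∑ x ∈ S, (‖e x.1‖ * ‖r x.2‖) ^ 2 := Finset.sum_nonneg fun _ _ => by positivity
    calc ‖cc e r N‖ ^ 2 ≤ (S.card : ℝ) * ∑ x ∈ S, (‖e x.1‖ * ‖r x.2‖) ^ 2 := h3
      _ ≤ K * ∑ x ∈ S, (‖e x.1‖ * ‖r x.2‖) ^ 2 := mul_le_mul_of_nonneg_right hScard h7
      _ ≤ K * ((∑ x ∈ N.divisorsAntidiagonal, (‖e x.1‖ ^ 2 / x.1) * (‖r x.2‖ ^ 2 / x.2)) * N) :=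
          mul_le_mul_of_nonneg_left h6 (by positivity)
      _ = _ := by ring
  refine (Finset.sum_le_sum h1).trans ?_
  rw [← Finset.mul_sum, mul_assoc]
  refine mul_le_mul_of_nonneg_left ?_ (by positivity)
  rw [Finset.sum_mul_sum, ← Finset.sum_product', Finset.sum_sigma']
  have hinj : Set.InjOn (fun x : (Σ _ : ℕ, ℕ × ℕ) => x.2)
      ((Finset.Icc 1 Z).sigma fun N => N.divisorsAntidiagonal : Set (Σ _ : ℕ, ℕ × ℕ)) := by
    intro x hx y hy hxy
    obtain ⟨_, h3⟩ := Finset.mem_sigma.1 (Finset.mem_coe.1 hx)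
    obtain ⟨_, h3'⟩ := Finset.mem_sigma.1 (Finset.mem_coe.1 hy)
    have h4 := (Nat.mem_divisorsAntidiagonal.1 h3).1
    have h4' := (Nat.mem_divisorsAntidiagonal.1 h3').1
    simp only at hxy
    refine Sigma.ext ?_ (heq_of_eq hxy)
    rw [← h4, ← h4', hxy]
  have e1 := Finset.sum_image (f := fun y : ℕ × ℕ => (‖e y.1‖ ^ 2 / (y.1 : ℝ)) * (‖r y.2‖ ^ 2 / (y.2 : ℝ))) hinj
  refine le_of_eq_of_le e1.symm ?_
  refine Finset.sum_le_sum_of_subset_of_nonneg ?_ fun _ _ _ => by positivity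
  intro y hy
  obtain ⟨x, hx, rfl⟩ := Finset.mem_image.1 hy
  obtain ⟨h2, h3⟩ := Finset.mem_sigma.1 hx
  obtain ⟨h4, h5⟩ := Nat.mem_divisorsAntidiagonal.1 h3
  obtain ⟨h6, h7⟩ := Finset.mem_Icc.1 h2
  have h8 : x.2.1 ≠ 0 := by rintro h; rw [h, zero_mul] at h4; omega
  have h9 : x.2.2 ≠ 0 := by rintro h; rw [h, mul_zero] at h4; omega
  have h10 : x.2.1 ≤ x.1 := by rw [← h4]; exact Nat.le_mul_of_pos_right _ (Nat.pos_of_ne_zero h9)
  have h11 : x.2.2 ≤ x.1 := by rw [← h4]; exact Nat.le_mul_of_pos_left _ (Nat.pos_of_ne_zero h8)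
  exact Finset.mem_product.2 ⟨Finset.mem_Icc.2 ⟨by omega, by omega⟩, Finset.mem_Icc.2 ⟨by omega, by omega⟩⟩

/-- the prime sum over `(T^(1/4032), T^(1/3)]` -/
lemma mertV {T : ℝ} (hT : 1 < T) {P : Finset ℕ} (hP : ∀ p ∈ P, p.Prime ∧ Big T p) : ∑ p ∈ P, 1 / (p : ℝ) ≤ 12 * Ls := by
  classical
  have hL : 0 < Real.log T := Real.log_pos hT
  have hT0 : 0 < T := by linarith
  set Z : ℝ := Real.log T / 2 with hZ
  have hcov : P ⊆ (Finset.range 12).biUnion (blk P Z) := by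
    intro p hp
    obtain ⟨hpp, h1, h2⟩ := hP p hp
    have hp0 : (0:ℝ) < p := by exact_mod_cast hpp.pos
    have h5 : Real.log T / 4032 < Real.log p := by
      have := Real.log_lt_log (by positivity) h1
      rw [Real.log_rpow hT0] at this
      linarith
    have h6 : Real.log p ≤ Real.log T / 3 := by
      have := Real.log_le_log hp0 h2
      rw [Real.log_rpow hT0] at this
      linarith
    have hlp : 0 < Real.log p := by
      have : 0 < Real.log T / 4032 := by positivity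
      linarith
    rw [Finset.mem_biUnion]
    -- the first `j` with `Z ≤ 2^(j+1) log p`
    have hex : ∃ j : ℕ, Z ≤ 2 ^ (j + 1) * Real.log p := ⟨11, by
      have : (2:ℝ) ^ (11 + 1) = 4096 := by norm_num
      rw [this, hZ]
      linarith⟩
    have hspec := Nat.find_spec hex
    have hle : Nat.find hex ≤ 11 := Nat.find_min' hex (by
      have : (2:ℝ) ^ (11 + 1) = 4096 := by norm_num
      rw [this, hZ]
      linarith)
    refine ⟨Nat.find hex, Finset.mem_range.2 (by omega), Finset.mem_filter.2 ⟨hp, ?_, hspec⟩⟩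
    rcases Nat.eq_zero_or_pos (Nat.find hex) with h0 | h0
    · rw [h0, pow_zero, one_mul, hZ]
      linarith
    · have := Nat.find_min hex (m := Nat.find hex - 1) (by omega)
      rw [not_le, Nat.sub_add_cancel h0] at this
      exact this
  calc ∑ p ∈ P, 1 / (p : ℝ) ≤ ∑ p ∈ (Finset.range 12).biUnion (blk P Z), 1 / (p : ℝ) :=
        Finset.sum_le_sum_of_subset_of_nonneg hcov fun _ _ _ => by positivity
    _ = ∑ j ∈ Finset.range 12, ∑ p ∈ blk P Z j, 1 / (p : ℝ) := by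
        refine Finset.sum_biUnion fun i _ j _ hij => blk_disj P Z hij
    _ ≤ ∑ _j ∈ Finset.range 12, Ls := Finset.sum_le_sum fun j _ => blk_sum_le (fun p hp => (hP p hp).1) Z j
    _ = 12 * Ls := by simp

end Pool.Agent.Helper25.HV
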