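import Pool.Agent.Helper65.HG.CSm
import Pool.Agent.Helper49.HG.Ex
import Pool.Agent.Helper49.HG.Nf
import Pool.Agent.Helper96.HG.SV
import Pool.Agent.Helper5.HG.Sb
import Pool.Agent.Helper33.HG.Tw
import Pool.Agent.Helper66.HG.Fin
import Pool.Agent.Helper5.HV.Afe2
import Pool.Agent.Helper95.HV.RM2
import Pool.Agent.Helper78.HV.Uir
import Pool.Agent.Helper34.HV.RD2
import Pool.Agent.Helper30.HV.RSc
import Pool.Agent.Helper58.HV.RS
import Pool.Agent.Helper83.HV.Num
import Pool.Agent.Helper82.HV.Fa2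
import Pool.Agent.Helper25.HV.V9
import Pool.Agent.Helper47.HV.Fin2

/-!
# Large gaps, `λ = 13/5`: all the blocks together
-/

open Pool.Agent.Helper69.HG

namespace Pool.Agent.Helper25.HV

theorem hallGaps2 : HallGaps2 := by
  have hCS : CS := Pool.Agent.Helper65.HG.cs
  have hEX : EX := Pool.Agent.Helper49.HG.ex
  have hSV : SV := Pool.Agent.Helper96.HG.sv
  have hSB : SB := HG5.sb
  have hAFE : AFE2 := Pool.Agent.Helper5.HV.afe2
  have hTW : TW := Pool.Agent.Helper33.HG.tw hSB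
  have hBM4 : BM4 := Pool.Agent.Helper66.HG.bm4
  have hRM : RM2 := Pool.Agent.Helper95.HV.rm2
  have hUIR : UIR := Pool.Agent.Helper78.HV.uir hRM
  have hRD : RD2 := Pool.Agent.Helper34.HV.rd2
  have hRS : RS2 := Pool.Agent.Helper58.HV.rs2_of_rsc Pool.Agent.Helper30.HV.rsc
  have hNUM : NUM2 := Pool.Agent.Helper83.HV.num2
  have hFA : FA2 := Pool.Agent.Helper82.HV.fa2 hCS hSV hRS hNUM
  have hUI : UI2 := ui2_of hAFE hTW hBM4 hUIR hRD hCS
  have hNG : NG := Pool.Agent.Helper49.HG.ng hCS hSV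
  exact Pool.Agent.Helper47.HV.fin2 hFA hUI hNG hEX

end Pool.Agent.Helper25.HV
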