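import Pool.Agent.Helper25.HV.Rough

/-!
# HV-V3: sums over the numbers with primes of the resonator
-/

open Finset MeasureTheory Filter Topology Set

namespace Pool.Agent.Helper25.HV

open Pool.Agent.Helper69.HG Pool.Agent.Helper25.HG Pool.Agent.Helper85.SV

/-- the constant of the convolution inequality -/
noncomputable def KV : ℝ := Classical.choose conv_sqV

lemma KV_one : 1 ≤ KV := (Classical.choose_spec conv_sqV).1

lemma conv_sqK {T : ℝ} (hT : 1 < T) {e r : ℕ → ℂ} (hr : ∀ h, r h ≠ 0 → RgV T h) {Z : ℕ} (hZ : (Z : ℝ) ≤ T) :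
    ∑ N ∈ Finset.Icc 1 Z, ‖cc e r N‖ ^ 2 / N ≤
      KV * (∑ n ∈ Finset.Icc 1 Z, ‖e n‖ ^ 2 / n) * ∑ h ∈ Finset.Icc 1 Z, ‖r h‖ ^ 2 / h :=
  (Classical.choose_spec conv_sqV).2 T hT e r hr Z hZ

/-- the bound of the coefficients of the resonator -/
noncomputable def CV : ℝ := Classical.choose rr2_bd

lemma CV_one : 1 ≤ CV := (Classical.choose_spec rr2_bd).1

lemma rr2_abs {T : ℝ} (hT : 1 < T) (n : ℕ) : |rr2 T n| ≤ CV := (Classical.choose_spec rr2_bd).2 T hT n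

/-- the Euler product constant -/
noncomputable def EV : ℝ := Real.exp (72 * Ls)

lemma EV_pos : 0 < EV := Real.exp_pos _

open Classical in
lemma sum_rgw {T : ℝ} (hT : 1 < T) (X : ℕ) :
    ∑ n ∈ (Finset.Icc 1 X).filter (RgW T), 1 / (n : ℝ) ≤ EV := by
  set W : ℕ → ℝ := fun p => if Big T p then 1 else 0 with hW
  have hW0 : ∀ p, 0 ≤ W p := fun p => by simp only [hW]; split_ifs <;> norm_num
  have h1 := Pool.Agent.Helper66.HG.euler_le hW0 X
  have h2 : ∑ n ∈ (Finset.Icc 1 X).filter (RgW T), 1 / (n : ℝ) ≤ ∑ n ∈ Finset.Icc 1 X, Pool.Agent.Helper66.HG.fW W n := by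
    have hnn : ∀ n, 0 ≤ Pool.Agent.Helper66.HG.fW W n := fun n => by
      unfold Pool.Agent.Helper66.HG.fW
      have := Finset.prod_nonneg (s := n.primeFactors) (f := W) fun p _ => hW0 p
      positivity
    refine le_trans (Finset.sum_le_sum fun n hn => ?_)
      (Finset.sum_le_sum_of_subset_of_nonneg (Finset.filter_subset (RgW T) _) fun n _ _ => hnn n)
    obtain ⟨h3, h4⟩ := Finset.mem_filter.1 hn
    have h5 : ∏ p ∈ n.primeFactors, W p = 1 := by
      refine Finset.prod_eq_one fun p hp => ?_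
      simp only [hW]
      rw [if_pos (h4.2 p hp)]
    unfold Pool.Agent.Helper66.HG.fW
    rw [h5, mul_one]
    have h6 : (1:ℝ) ≤ n.divisors.card := by
      have : 0 < n.divisors.card := Finset.card_pos.2 ⟨1, Nat.one_mem_divisors.2 h4.1⟩
      exact_mod_cast this
    exact div_le_div_of_nonneg_right h6 (Nat.cast_nonneg _)
  refine h2.trans (h1.trans (Real.exp_le_exp.2 ?_))
  have h3 : ∑ p ∈ (Finset.Icc 1 X).filter Nat.Prime, W p / p =
      ∑ p ∈ ((Finset.Icc 1 X).filter Nat.Prime).filter (Big T), 1 / (p : ℝ) := by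
    conv_rhs => rw [Finset.sum_filter]
    refine Finset.sum_congr rfl fun p _ => ?_
    simp only [hW]
    split_ifs <;> simp
  rw [h3]
  have h4 := mertV hT (P := ((Finset.Icc 1 X).filter Nat.Prime).filter (Big T))
    (fun p hp => by
      obtain ⟨h5, h6⟩ := Finset.mem_filter.1 hp
      exact ⟨(Finset.mem_filter.1 h5).2, h6⟩)
  linarith

lemma sum_inv_sqV {y : ℝ} (hy : 1 ≤ y) (S : Finset ℕ) (hS : ∀ n ∈ S, y < (n : ℝ)) : ∑ n ∈ S, 1 / (n : ℝ) ^ 2 ≤ 2 / y := by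
  have hy0 : 0 < y := by linarith
  set m : ℕ := ⌊y⌋₊ with hm
  have hm1 : 1 ≤ m := by rw [hm]; exact Nat.floor_pos.2 hy
  have hm1' : (1:ℝ) ≤ m := by exact_mod_cast hm1
  have hmy : y < m + 1 := Nat.lt_floor_add_one y
  obtain ⟨N, hN⟩ : ∃ N : ℕ, ∀ n ∈ S, n < N := ⟨S.sup id + 1, fun n hn => Nat.lt_succ_of_le (Finset.le_sup (f := id) hn)⟩
  have hSm : ∀ n ∈ S, m + 1 ≤ n := fun n hn => Nat.succ_le_of_lt (Nat.floor_lt hy0.le |>.2 (hS n hn))
  have h1 : ∑ n ∈ S, 1 / (n : ℝ) ^ 2 ≤ ∑ n ∈ Finset.Ico (m + 1) (max N (m + 1)), 1 / (n : ℝ) ^ 2 := by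
    refine Finset.sum_le_sum_of_subset_of_nonneg (fun n hn => ?_) fun _ _ _ => by positivity
    exact Finset.mem_Ico.2 ⟨hSm n hn, lt_of_lt_of_le (hN n hn) (le_max_left _ _)⟩
  have h2 : ∀ M : ℕ, m + 1 ≤ M → ∑ n ∈ Finset.Ico (m + 1) M, 1 / (n : ℝ) ^ 2 ≤ 1 / m - 1 / (M - 1 : ℝ) := by
    intro M hM
    induction M, hM using Nat.le_induction with
    | base => simp
    | succ M hM ih =>
      rw [Finset.sum_Ico_succ_top hM]
      have hM1 : (m:ℝ) + 1 ≤ M := by exact_mod_cast hM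
      have hM0 : (0:ℝ) < M - 1 := by linarith
      have hM2 : (0:ℝ) < M := by linarith
      have h3 : 1 / (M:ℝ) ^ 2 ≤ 1 / (M - 1 : ℝ) - 1 / M := by
        rw [div_sub_div _ _ hM0.ne' hM2.ne', div_le_div_iff₀ (by positivity) (by positivity)]
        nlinarith
      push_cast
      have e : (M:ℝ) + 1 - 1 = M := by ring
      rw [e]
      linarith
  have h3 := h2 (max N (m + 1)) (le_max_right _ _)
  have h4 : (0:ℝ) ≤ 1 / ((max N (m + 1) : ℕ) - 1 : ℝ) := by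
    have : ((m + 1 : ℕ) : ℝ) ≤ ((max N (m + 1) : ℕ) : ℝ) := by exact_mod_cast le_max_right _ _
    push_cast at this
    apply div_nonneg zero_le_one
    push_cast
    linarith
  have h5 : 1 / (m:ℝ) ≤ 2 / y := by
    rw [div_le_div_iff₀ (by linarith) hy0]
    linarith
  linarith

open Classical in
/-- the numbers that are not squarefree -/
lemma sum_rgw_nsq {T : ℝ} (hT : 1 < T) (X : ℕ) :
    ∑ n ∈ (Finset.Icc 1 X).filter (fun n => RgW T n ∧ ¬ Squarefree n), 1 / (n : ℝ) ≤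
      2 * T ^ (-(1 / 4032) : ℝ) * EV := by
  have hT0 : 0 < T := by linarith
  set P := (Finset.Icc 1 X).filter (fun p => p.Prime ∧ Big T p) with hP
  set M := (Finset.Icc 1 X).filter (RgW T) with hM
  have h1 : ∑ n ∈ (Finset.Icc 1 X).filter (fun n => RgW T n ∧ ¬ Squarefree n), 1 / (n : ℝ) ≤
      ∑ x ∈ P ×ˢ M, 1 / (x.1 : ℝ) ^ 2 * (1 / (x.2 : ℝ)) := by
    have hsub : (Finset.Icc 1 X).filter (fun n => RgW T n ∧ ¬ Squarefree n) ⊆
        (P ×ˢ M).image (fun x => x.1 ^ 2 * x.2) := by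
      intro n hn
      obtain ⟨h2, h3, h4⟩ := Finset.mem_filter.1 hn
      obtain ⟨h5, h6⟩ := Finset.mem_Icc.1 h2
      rw [Nat.squarefree_iff_prime_squarefree] at h4
      push Not at h4
      obtain ⟨p, hp, hpn⟩ := h4
      obtain ⟨m, hm⟩ := hpn
      have hm0 : m ≠ 0 := by rintro rfl; rw [mul_zero] at hm; omega
      have hpn' : p ∈ n.primeFactors := Nat.mem_primeFactors.2 ⟨hp, ⟨p * m, by rw [hm]; ring⟩, by omega⟩
      have hmn : m ≤ n := by
        rw [hm]; exact Nat.le_mul_of_pos_left _ (Nat.mul_pos hp.pos hp.pos)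
      have hpn2 : p ≤ n := Nat.le_of_dvd (by omega) (Nat.dvd_of_mem_primeFactors hpn')
      refine Finset.mem_image.2 ⟨(p, m), Finset.mem_product.2 ⟨?_, ?_⟩, by rw [hm]; ring⟩
      · exact Finset.mem_filter.2 ⟨Finset.mem_Icc.2 ⟨hp.one_le, by omega⟩, hp, h3.2 p hpn'⟩
      · refine Finset.mem_filter.2 ⟨Finset.mem_Icc.2 ⟨by omega, by omega⟩, hm0, fun q hq => h3.2 q ?_⟩
        exact Nat.primeFactors_mono ⟨p * p, by rw [hm]; ring⟩ (by omega) hq
    calc ∑ n ∈ (Finset.Icc 1 X).filter (fun n => RgW T n ∧ ¬ Squarefree n), 1 / (n : ℝ)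
        ≤ ∑ n ∈ ((P ×ˢ M).image (fun x => x.1 ^ 2 * x.2) : Finset ℕ), 1 / (n : ℝ) :=
          Finset.sum_le_sum_of_subset_of_nonneg hsub fun _ _ _ => by positivity
      _ ≤ ∑ x ∈ P ×ˢ M, 1 / ((x.1 ^ 2 * x.2 : ℕ) : ℝ) :=
          Finset.sum_image_le_of_nonneg (f := fun n : ℕ => 1 / (n : ℝ)) (g := fun x : ℕ × ℕ => x.1 ^ 2 * x.2)
            fun _ _ => by positivity
      _ = _ := by
          refine Finset.sum_congr rfl fun x _ => ?_
          push_cast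
          rw [one_div_mul_one_div]
  refine h1.trans ?_
  rw [Finset.sum_product' P M (fun a b : ℕ => 1 / (a : ℝ) ^ 2 * (1 / (b : ℝ))), ← Finset.sum_mul_sum]
  have hy : 1 ≤ T ^ (1 / 4032 : ℝ) := Real.one_le_rpow hT.le (by norm_num)
  have h2 := sum_inv_sqV hy P (fun p hp => by
    obtain ⟨_, h3, h4⟩ := Finset.mem_filter.1 hp
    exact h4.1)
  have h3 : 2 / T ^ (1 / 4032 : ℝ) = 2 * T ^ (-(1 / 4032) : ℝ) := by
    rw [Real.rpow_neg hT0.le, div_eq_mul_inv]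
  rw [h3] at h2
  exact mul_le_mul h2 (sum_rgw hT X) (Finset.sum_nonneg fun _ _ => by positivity) (by positivity)

/-! ### the resonator -/

lemma rr2_rg {T : ℝ} (hT : 1 < T) {n : ℕ} (h : rr2 T n ≠ 0) : RgW T n :=
  ⟨(rr2_supp hT h).1, (rr2_supp hT h).2.2.2⟩

lemma rr2_len {T : ℝ} (hT : 1 < T) {n : ℕ} (h : rr2 T n ≠ 0) : (n : ℝ) ≤ T ^ (503 / 1008 : ℝ) := (rr2_supp hT h).2.2.1

/-- mean square of the coefficients of the resonator -/
lemma sum_rr2 {T : ℝ} (hT : 1 < T) (X : ℕ) :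
    ∑ h ∈ Finset.Icc 1 X, ‖(rr2 T h : ℂ)‖ ^ 2 / h ≤ CV ^ 2 * EV := by
  classical
  calc ∑ h ∈ Finset.Icc 1 X, ‖(rr2 T h : ℂ)‖ ^ 2 / h ≤ ∑ h ∈ Finset.Icc 1 X, (if RgW T h then CV ^ 2 * (1 / (h : ℝ)) else 0) := by
        refine Finset.sum_le_sum fun h _ => ?_
        rw [Complex.norm_real, Real.norm_eq_abs]
        split_ifs with h1
        · rw [mul_one_div]
          exact div_le_div_of_nonneg_right (pow_le_pow_left₀ (abs_nonneg _) (rr2_abs hT h) 2) (Nat.cast_nonneg _)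
        · have : rr2 T h = 0 := by
            by_contra hcon
            exact h1 (rr2_rg hT hcon)
          rw [this]; simp
    _ = CV ^ 2 * ∑ h ∈ (Finset.Icc 1 X).filter (RgW T), 1 / (h : ℝ) := by
        rw [Finset.mul_sum, Finset.sum_filter]
    _ ≤ CV ^ 2 * EV := mul_le_mul_of_nonneg_left (sum_rgw hT X) (sq_nonneg _)

/-- mean square of the coefficients of the non-squarefree part -/
lemma sum_nsqV {T : ℝ} (hT : 1 < T) (X : ℕ) {e : ℕ → ℂ} {C : ℝ} (he : ∀ n, ‖e n‖ ≤ C)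
    (he' : ∀ n, e n ≠ 0 → n ≠ 0 ∧ ¬ Squarefree n ∧ ∀ p ∈ n.primeFactors, Big T p) :
    ∑ h ∈ Finset.Icc 1 X, ‖e h‖ ^ 2 / h ≤ C ^ 2 * (2 * T ^ (-(1 / 4032) : ℝ) * EV) := by
  classical
  calc ∑ h ∈ Finset.Icc 1 X, ‖e h‖ ^ 2 / h ≤
      ∑ h ∈ Finset.Icc 1 X, (if RgW T h ∧ ¬ Squarefree h then C ^ 2 * (1 / (h : ℝ)) else 0) := by
        refine Finset.sum_le_sum fun h _ => ?_
        split_ifs with h1
        · rw [mul_one_div]
          exact div_le_div_of_nonneg_right (pow_le_pow_left₀ (norm_nonneg _) (he h) 2) (Nat.cast_nonneg _)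
        · have : e h = 0 := by
            by_contra hcon
            obtain ⟨h2, h3, h4⟩ := he' h hcon
            exact h1 ⟨⟨h2, h4⟩, h3⟩
          rw [this]; simp
    _ = C ^ 2 * ∑ h ∈ (Finset.Icc 1 X).filter (fun n => RgW T n ∧ ¬ Squarefree n), 1 / (h : ℝ) := by
        rw [Finset.mul_sum, Finset.sum_filter]
    _ ≤ _ := mul_le_mul_of_nonneg_left (sum_rgw_nsq hT X) (sq_nonneg _)

end Pool.Agent.Helper25.HV
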