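import Pool.Agent.Helper25.HV.V3
import Pool.Agent.Helper49.HG.Ex

/-!
# HV-V4: the decomposition of the mollified and resonated zeta function
-/

open Finset MeasureTheory Filter Topology Set

namespace Pool.Agent.Helper25.HV

open Pool.Agent.Helper69.HG Pool.Agent.Helper25.HG

/-- the coefficients of `BF F T ξ` -/
noncomputable def kap (F : ℝ → ℂ) (T ξ : ℝ) (n : ℕ) : ℂ :=
  kF F (Real.log n / Real.log T) * (n : ℂ) ^ (Complex.I * (ξ / Real.log T))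

lemma BF_eq (F : ℝ → ℂ) (T ξ t : ℝ) : BF F T ξ t = DP ⌊T⌋₊ (kap F T ξ) t := rfl

lemma eN_eq (F : ℝ → ℂ) (T : ℝ) (a : ℕ → ℝ) (ξ : ℝ) (N : ℕ) : eN F T a ξ N = cc (fun m => (a m : ℂ)) (kap F T ξ) N := rfl

lemma floor_lt_rpow {T u : ℝ} (hT : 1 < T) {n : ℕ} (h : ⌊T ^ u⌋₊ < n) : T ^ u < (n : ℝ) :=
  (Nat.floor_lt (by positivity)).1 h

lemma kap_zero {lo hi : ℝ} {F : ℝ → ℂ} (hF : IsCut lo hi F) {T : ℝ} (hT : 1 < T) (ξ : ℝ) {n : ℕ}
    (h : ⌊T ^ hi⌋₊ < n) : kap F T ξ n = 0 := by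
  have h1 := floor_lt_rpow hT h
  have hT0 : 0 < T := by linarith
  have hL : 0 < Real.log T := Real.log_pos hT
  have h2 := Real.log_lt_log (by positivity) h1
  rw [Real.log_rpow hT0] at h2
  unfold kap
  rw [hF.zero _ (by rw [le_div_iff₀ hL]; exact h2.le), zero_mul]

lemma kap_norm {lo hi : ℝ} {F : ℝ → ℂ} (hF : IsCut lo hi F) (T ξ : ℝ) {n : ℕ} (hn : 1 ≤ n) : ‖kap F T ξ n‖ ≤ 1 := by
  unfold kap
  rw [norm_mul]
  have h1 : ‖(n : ℂ) ^ (Complex.I * (ξ / Real.log T))‖ = 1 := by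
    have hn0 : (0:ℝ) < n := by exact_mod_cast hn
    have e : (Complex.I * (ξ / Real.log T) : ℂ) = ((ξ / Real.log T : ℝ) : ℂ) * Complex.I := by push_cast; ring
    rw [e, ← Complex.ofReal_natCast, Complex.norm_cpow_eq_rpow_re_of_pos hn0]
    simp
  rw [h1, mul_one]
  exact hF.bd _

lemma a_zero {T ε : ℝ} {b : ℕ} {a : ℕ → ℝ} (ha : IsCM T ε b a) : a 0 = 0 := by
  obtain ⟨p, hp1, hp2⟩ := Nat.exists_infinite_primes (⌊T ^ ε⌋₊ + 1)
  exact ha.big 0 p hp2 (dvd_zero p) (Nat.lt_of_floor_lt (by omega))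

/-- length of the mollifier -/
lemma a_len {T ε u : ℝ} {b : ℕ} {a : ℕ → ℝ} (ha : IsCM T ε b a) (hT : 1 < T) (hε : 0 < ε)
    (hu : 2 * (ε * (2 * b + 2)) ≤ u) {n : ℕ} (hn : a n ≠ 0) : (n : ℝ) ≤ T ^ u := by
  have hn0 : n ≠ 0 := by rintro rfl; exact hn (a_zero ha)
  have h := Pool.Agent.Helper49.HG.cm_len hT hε ha hn0 hn
  exact h.trans (Real.rpow_le_rpow_of_exponent_le hT.le (by linarith))

lemma a_zero_of_lt {T ε u : ℝ} {b : ℕ} {a : ℕ → ℝ} (ha : IsCM T ε b a) (hT : 1 < T) (hε : 0 < ε)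
    (hu : 2 * (ε * (2 * b + 2)) ≤ u) {n : ℕ} (hn : ⌊T ^ u⌋₊ < n) : (a n : ℂ) = 0 := by
  by_contra h
  have h1 : a n ≠ 0 := by exact_mod_cast h
  have h2 := a_len ha hT hε hu h1
  have h3 := floor_lt_rpow hT hn
  linarith

lemma rr2_zero_of_lt {T : ℝ} (hT : 1 < T) {n : ℕ} (hn : XR2 T < n) : (rr2 T n : ℂ) = 0 := by
  by_contra h
  have h1 : rr2 T n ≠ 0 := by exact_mod_cast h
  have h2 := rr2_len hT h1
  have h3 := floor_lt_rpow hT hn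
  linarith

lemma floor_mul_le {T u v w : ℝ} (hT : 1 < T) (h : u + v ≤ w) : ⌊T ^ u⌋₊ * ⌊T ^ v⌋₊ ≤ ⌊T ^ w⌋₊ := by
  have hT0 : 0 < T := by linarith
  apply Nat.le_floor
  push_cast
  calc (⌊T ^ u⌋₊ : ℝ) * ⌊T ^ v⌋₊ ≤ T ^ u * T ^ v :=
        mul_le_mul (Nat.floor_le (by positivity)) (Nat.floor_le (by positivity)) (Nat.cast_nonneg _) (by positivity)
    _ = T ^ (u + v) := (Real.rpow_add hT0 u v).symm
    _ ≤ T ^ w := Real.rpow_le_rpow_of_exponent_le hT.le h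

/-- the mollifier and the resonator on the line -/
noncomputable def Mt (T : ℝ) (a : ℕ → ℝ) (t : ℝ) : ℂ := DP (XM2 T) (fun n => (a n : ℂ)) t
noncomputable def Rt (T t : ℝ) : ℂ := DP (XR2 T) (fun n => (rr2 T n : ℂ)) t

lemma fg_eq {T ε : ℝ} {b : ℕ} {a : ℕ → ℝ} (ha : IsCM T ε b a) (hT : 1 < T) (hε : 0 < ε)
    (hu : 2 * (ε * (2 * b + 2)) ≤ 1 / 4032) (t : ℝ) : fg2 T a t = ze t * (Mt T a t * Rt T t) := by
  unfold fg2 Mt Rt
  rw [DP_mul (X := XM2 T) (Y := XR2 T) (Z := XX2 T) (fun n hn => a_zero_of_lt ha hT hε hu hn)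
    (fun n hn => rr2_zero_of_lt hT hn) (floor_mul_le hT (by norm_num))]
  congr 1
  refine DP_congr (fun n _ _ => ?_) t
  unfold conv cc
  push_cast
  rfl

/-- the trivial bound of mollifier times resonator -/
lemma sum_inv_sqrt (X : ℕ) : ∑ n ∈ Finset.Icc 1 X, 1 / Real.sqrt n ≤ 2 * Real.sqrt X := by
  induction X with
  | zero => simp
  | succ X ih =>
    rw [Finset.sum_Icc_succ_top (by omega)]
    have h1 : 0 ≤ Real.sqrt X := Real.sqrt_nonneg _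
    have h2 : 0 < Real.sqrt ((X + 1 : ℕ) : ℝ) := Real.sqrt_pos.2 (by positivity)
    have h3 : Real.sqrt X ^ 2 = X := Real.sq_sqrt (Nat.cast_nonneg _)
    have h4 : Real.sqrt ((X + 1 : ℕ) : ℝ) ^ 2 = X + 1 := by
      rw [Real.sq_sqrt (by positivity)]; push_cast; ring
    have h5 : 1 / Real.sqrt ((X + 1 : ℕ) : ℝ) ≤ 2 * Real.sqrt ((X + 1 : ℕ) : ℝ) - 2 * Real.sqrt X := by
      rw [div_le_iff₀ h2]
      nlinarith [sq_nonneg (Real.sqrt ((X + 1 : ℕ) : ℝ) - Real.sqrt X)]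
    linarith

lemma DP_triv (X : ℕ) {c : ℕ → ℂ} {C : ℝ} (hc : ∀ n, ‖c n‖ ≤ C) (t : ℝ) : ‖DP X c t‖ ≤ C * (2 * Real.sqrt X) := by
  have hC : 0 ≤ C := (norm_nonneg _).trans (hc 0)
  rw [DP_eq]
  refine (norm_sum_le _ _).trans ?_
  calc ∑ n ∈ Finset.Icc 1 X, ‖c n * (n : ℂ) ^ (-((1 / 2 : ℂ) + t * Complex.I))‖
      ≤ ∑ n ∈ Finset.Icc 1 X, C * (1 / Real.sqrt n) := by
        refine Finset.sum_le_sum fun n hn => ?_
        rw [norm_mul, Pool.Agent.Helper66.HG.cpow_half (Finset.mem_Icc.1 hn).1, norm_mul, Complex.norm_real,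
          ← Complex.ofReal_neg, Complex.norm_exp_ofReal_mul_I, mul_one, Real.norm_of_nonneg (by positivity)]
        exact mul_le_mul_of_nonneg_right (hc n) (by positivity)
    _ = C * ∑ n ∈ Finset.Icc 1 X, 1 / Real.sqrt n := by rw [Finset.mul_sum]
    _ ≤ C * (2 * Real.sqrt X) := mul_le_mul_of_nonneg_left (sum_inv_sqrt X) hC

lemma MR_triv {T ε : ℝ} {b : ℕ} {a : ℕ → ℝ} (ha : IsCM T ε b a) (hT : 1 < T) (t : ℝ) :
    ‖Mt T a t * Rt T t‖ ^ 2 ≤ 16 * CV ^ 2 * T ^ (2013 / 4032 : ℝ) := by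
  have hT0 : 0 < T := by linarith
  have h1 : ‖Mt T a t‖ ≤ 1 * (2 * Real.sqrt (XM2 T)) := DP_triv (XM2 T) (fun n => by
    rw [Complex.norm_real, Real.norm_eq_abs]; exact ha.bd n) t
  have h2 : ‖Rt T t‖ ≤ CV * (2 * Real.sqrt (XR2 T)) := DP_triv (XR2 T) (fun n => by
    rw [Complex.norm_real, Real.norm_eq_abs]; exact rr2_abs hT n) t
  have hC : 0 ≤ CV := by linarith [CV_one]
  rw [norm_mul, mul_pow]
  have h3 : ‖Mt T a t‖ ^ 2 ≤ 4 * T ^ (1 / 4032 : ℝ) := by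
    calc ‖Mt T a t‖ ^ 2 ≤ (1 * (2 * Real.sqrt (XM2 T))) ^ 2 := pow_le_pow_left₀ (norm_nonneg _) h1 2
      _ = 4 * (XM2 T : ℝ) := by rw [one_mul, mul_pow, Real.sq_sqrt (Nat.cast_nonneg _)]; norm_num
      _ ≤ 4 * T ^ (1 / 4032 : ℝ) := by
          have : (XM2 T : ℝ) ≤ T ^ (1 / 4032 : ℝ) := Nat.floor_le (by positivity)
          linarith
  have h4 : ‖Rt T t‖ ^ 2 ≤ CV ^ 2 * (4 * T ^ (503 / 1008 : ℝ)) := by
    calc ‖Rt T t‖ ^ 2 ≤ (CV * (2 * Real.sqrt (XR2 T))) ^ 2 := pow_le_pow_left₀ (norm_nonneg _) h2 2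
      _ = CV ^ 2 * (4 * (XR2 T : ℝ)) := by rw [mul_pow, mul_pow, Real.sq_sqrt (Nat.cast_nonneg _)]; norm_num
      _ ≤ CV ^ 2 * (4 * T ^ (503 / 1008 : ℝ)) := by
          have : (XR2 T : ℝ) ≤ T ^ (503 / 1008 : ℝ) := Nat.floor_le (by positivity)
          exact mul_le_mul_of_nonneg_left (by linarith) (sq_nonneg _)
  calc ‖Mt T a t‖ ^ 2 * ‖Rt T t‖ ^ 2 ≤ 4 * T ^ (1 / 4032 : ℝ) * (CV ^ 2 * (4 * T ^ (503 / 1008 : ℝ))) :=
        mul_le_mul h3 h4 (sq_nonneg _) (by positivity)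
    _ = 16 * CV ^ 2 * (T ^ (1 / 4032 : ℝ) * T ^ (503 / 1008 : ℝ)) := by ring
    _ = 16 * CV ^ 2 * T ^ (2013 / 4032 : ℝ) := by
        rw [← Real.rpow_add hT0]; norm_num

/-! ### the main part and the edge part of `BF F T 0 · M` -/

/-- the indicator of `N ≤ T^(1/2-d)` -/
noncomputable def cA (T d : ℝ) (N : ℕ) : ℂ := if (N : ℝ) ≤ T ^ (1 / 2 - d) then 1 else 0

lemma cA_norm (T d : ℝ) (N : ℕ) : ‖cA T d N‖ ≤ 1 := by
  unfold cA; split_ifs <;> simp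

/-- the main part -/
noncomputable def Am (T d : ℝ) (a : ℕ → ℝ) (t : ℝ) : ℂ := DP ⌊T ^ (1 / 2 : ℝ)⌋₊ (fun N => cA T d N * (lam a N : ℂ)) t

/-- the coefficients of the edge part -/
noncomputable def eE (F : ℝ → ℂ) (T d : ℝ) (a : ℕ → ℝ) (N : ℕ) : ℂ :=
  if (N : ℝ) ≤ T ^ (1 / 2 - d) then 0 else eN F T a 0 N

lemma eN_small {hi d : ℝ} {F : ℝ → ℂ} (hF : IsCut (1 / 2 - d) hi F) {T : ℝ} (hT : 1 < T) (a : ℕ → ℝ) {N : ℕ}
    (hN : 1 ≤ N) (h : (N : ℝ) ≤ T ^ (1 / 2 - d)) : eN F T a 0 N = (lam a N : ℂ) := by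
  have hT0 : 0 < T := by linarith
  have hL : 0 < Real.log T := Real.log_pos hT
  unfold eN lam
  push_cast
  refine Finset.sum_congr rfl fun m hm => ?_
  obtain ⟨h1, h2⟩ := Nat.mem_divisors.1 hm
  obtain ⟨q, hq⟩ := h1
  have hm0 : 0 < m := Nat.pos_of_ne_zero (by rintro rfl; rw [zero_mul] at hq; exact h2 hq)
  have hq0 : 0 < q := Nat.pos_of_ne_zero (by rintro rfl; rw [mul_zero] at hq; exact h2 hq)
  have hqN : N / m = q := by rw [hq]; exact Nat.mul_div_cancel_left q hm0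
  rw [hqN]
  have hq1 : (q : ℝ) ≤ T ^ (1 / 2 - d) := by
    refine le_trans ?_ h
    rw [hq]
    exact_mod_cast Nat.le_mul_of_pos_left q hm0
  have hq2 : (1:ℝ) ≤ q := by exact_mod_cast hq0
  have h3 : Real.log q / Real.log T ≤ 1 / 2 - d := by
    rw [div_le_iff₀ hL]
    have := Real.log_le_log (by linarith) hq1
    rw [Real.log_rpow hT0] at this
    exact this
  have h4 : 0 ≤ Real.log q / Real.log T := div_nonneg (Real.log_nonneg hq2) hL.le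
  rw [hF.one _ (by linarith) h3]
  simp

lemma eN_zero_of_lt {lo d : ℝ} {F : ℝ → ℂ} (hF : IsCut lo (1 / 2 + d) F) {T ε : ℝ} {b : ℕ} {a : ℕ → ℝ}
    (ha : IsCM T ε b a) (hT : 1 < T) (hε : 0 < ε) (hu : 2 * (ε * (2 * b + 2)) ≤ d) {N : ℕ}
    (h : T ^ (1 / 2 + 2 * d) < (N : ℝ)) : eN F T a 0 N = 0 := by
  have hT0 : 0 < T := by linarith
  have hL : 0 < Real.log T := Real.log_pos hT
  unfold eN
  refine Finset.sum_eq_zero fun m hm => ?_
  obtain ⟨h1, h2⟩ := Nat.mem_divisors.1 hm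
  obtain ⟨q, hq⟩ := h1
  have hm0 : 0 < m := Nat.pos_of_ne_zero (by rintro rfl; rw [zero_mul] at hq; exact h2 hq)
  have hq0 : 0 < q := Nat.pos_of_ne_zero (by rintro rfl; rw [mul_zero] at hq; exact h2 hq)
  have hqN : N / m = q := by rw [hq]; exact Nat.mul_div_cancel_left q hm0
  rw [hqN]
  by_cases hm1 : a m = 0
  · rw [hm1]; simp
  have h3 := a_len ha hT hε hu hm1
  have hqr : (0:ℝ) < q := by exact_mod_cast hq0
  have h4 : T ^ (1 / 2 + d) < (q : ℝ) := by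
    by_contra hcon
    rw [not_lt] at hcon
    have h5 : (N : ℝ) ≤ T ^ d * T ^ (1 / 2 + d) := by
      rw [hq]; push_cast
      exact mul_le_mul h3 hcon hqr.le (by positivity)
    rw [← Real.rpow_add hT0] at h5
    have e : d + (1 / 2 + d) = 1 / 2 + 2 * d := by ring
    rw [e] at h5
    linarith
  have h6 := Real.log_lt_log (by positivity) h4
  rw [Real.log_rpow hT0] at h6
  rw [hF.zero _ (by rw [le_div_iff₀ hL]; exact h6.le)]
  simp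

lemma BM_split {d : ℝ} {F : ℝ → ℂ} (hd : 0 < d) (hd1 : d ≤ 1 / 4032) (hF : IsCut (1 / 2 - d) (1 / 2 + d) F) {T ε : ℝ}
    {b : ℕ} {a : ℕ → ℝ} (ha : IsCM T ε b a) (hT : 1 < T) (hε : 0 < ε) (hu : 2 * (ε * (2 * b + 2)) ≤ d) (t : ℝ) :
    BF F T 0 t * Mt T a t = Am T d a t + DP ⌊T ^ (2020 / 4032 : ℝ)⌋₊ (eE F T d a) t := by
  have hT0 : 0 < T := by linarith
  have e1 : BF F T 0 t = DP ⌊T ^ (1 / 2 + d)⌋₊ (kap F T 0) t := by
    rw [BF_eq]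
    symm
    refine DP_trunc (fun n hn => kap_zero hF hT 0 hn) ?_ t
    apply Nat.floor_le_floor
    conv_rhs => rw [← Real.rpow_one T]
    exact Real.rpow_le_rpow_of_exponent_le hT.le (by linarith)
  have e2 : BF F T 0 t * Mt T a t = DP ⌊T ^ (2020 / 4032 : ℝ)⌋₊ (fun N => eN F T a 0 N) t := by
    rw [e1, mul_comm]
    unfold Mt XM2
    rw [DP_mul (X := ⌊T ^ (1 / 4032 : ℝ)⌋₊) (Y := ⌊T ^ (1 / 2 + d)⌋₊) (Z := ⌊T ^ (2020 / 4032 : ℝ)⌋₊)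
      (fun n hn => a_zero_of_lt ha hT hε (by linarith) hn) (fun n hn => kap_zero hF hT 0 hn)
      (floor_mul_le hT (by linarith))]
    rfl
  rw [e2]
  have e3 : Am T d a t = DP ⌊T ^ (2020 / 4032 : ℝ)⌋₊ (fun N => cA T d N * (lam a N : ℂ)) t := by
    unfold Am
    refine DP_trunc (fun n hn => ?_) ?_ t
    · have h1 := floor_lt_rpow hT hn
      unfold cA
      rw [if_neg, zero_mul]
      rw [not_le]
      exact lt_of_le_of_lt (Real.rpow_le_rpow_of_exponent_le hT.le (by linarith)) h1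
    · exact Nat.floor_le_floor (Real.rpow_le_rpow_of_exponent_le hT.le (by norm_num))
  rw [e3, ← DP_add]
  refine DP_congr (fun N hN _ => ?_) t
  unfold eE cA
  split_ifs with h
  · rw [eN_small hF hT a hN h, one_mul, add_zero]
  · rw [zero_mul, zero_add]

end Pool.Agent.Helper25.HV
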