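import Pool.Agent.Helper25.HV.V4

/-!
# HV-V5: mean squares of the parts
-/

open Finset MeasureTheory Filter Topology Set

namespace Pool.Agent.Helper25.HV

open Pool.Agent.Helper69.HG Pool.Agent.Helper25.HG Pool.Agent.Helper85.SV

/-- the constant of the resonator -/
noncomputable def KR : ℝ := 28 * KV * (CV ^ 2 * EV)

lemma KR_pos : 0 < KR := by
  have h1 : 0 < KV := lt_of_lt_of_le one_pos KV_one
  have h2 : 0 < CV := lt_of_lt_of_le one_pos CV_one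
  have h3 := EV_pos
  unfold KR; positivity

lemma int_floor_le {T : ℝ} (hT : 1 < T) : ((⌊T⌋₊ : ℕ) : ℝ) ≤ T := Nat.floor_le (by linarith)

/-- a Dirichlet polynomial times the resonator -/
lemma ms_rr {T : ℝ} (hT : 1 < T) {X : ℕ} {e : ℕ → ℂ} (he : ∀ n, X < n → e n = 0) (hX : X * XR2 T ≤ ⌊T⌋₊) {S : ℝ}
    (hS : ∑ n ∈ Finset.Icc 1 ⌊T⌋₊, ‖e n‖ ^ 2 / n ≤ S) :
    ∫⁻ t in Set.Icc T (2 * T), ‖DP X e t * Rt T t‖ₑ ^ 2 ≤ ENNReal.ofReal (KR * S * T) := by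
  have hT0 : 0 < T := by linarith
  have e1 : ∀ t, DP X e t * Rt T t = DP ⌊T⌋₊ (cc e (fun n => (rr2 T n : ℂ))) t := fun t =>
    DP_mul he (fun n hn => rr2_zero_of_lt hT hn) hX t
  simp_rw [e1]
  refine (dp_mv _ hT0 (int_floor_le hT)).trans (ENNReal.ofReal_le_ofReal ?_)
  have h1 := conv_sqK hT (e := e) (r := fun n => (rr2 T n : ℂ)) (fun h hh => (rr2_rg hT (by exact_mod_cast hh)).rg)
    (int_floor_le hT)
  have h2 := sum_rr2 hT ⌊T⌋₊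
  have hKV : 0 < KV := lt_of_lt_of_le one_pos KV_one
  have hEV := EV_pos
  have h3 : 0 ≤ ∑ n ∈ Finset.Icc 1 ⌊T⌋₊, ‖e n‖ ^ 2 / (n:ℝ) := Finset.sum_nonneg fun _ _ => by positivity
  have h4 : 0 ≤ CV ^ 2 * EV := by positivity
  calc 28 * T * ∑ n ∈ Finset.Icc 1 ⌊T⌋₊, ‖cc e (fun n => (rr2 T n : ℂ)) n‖ ^ 2 / n
      ≤ 28 * T * (KV * (∑ n ∈ Finset.Icc 1 ⌊T⌋₊, ‖e n‖ ^ 2 / n) *
          ∑ h ∈ Finset.Icc 1 ⌊T⌋₊, ‖(rr2 T h : ℂ)‖ ^ 2 / h) := mul_le_mul_of_nonneg_left h1 (by positivity)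
    _ ≤ 28 * T * (KV * S * (CV ^ 2 * EV)) := by
        refine mul_le_mul_of_nonneg_left ?_ (by positivity)
        exact mul_le_mul (mul_le_mul_of_nonneg_left hS (by positivity)) h2
          (Finset.sum_nonneg fun _ _ => by positivity) (mul_nonneg (by positivity) (h3.trans hS))
    _ = KR * S * T := by unfold KR; ring

/-- the edge part -/
lemma ms_edge {d : ℝ} {F : ℝ → ℂ} (hd : 0 < d) (hd1 : d ≤ 1 / 4032) (hF : IsCut (1 / 2 - d) (1 / 2 + d) F) {T ε : ℝ}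
    {b : ℕ} {a : ℕ → ℝ} (ha : IsCM T ε b a) (hT : 1 < T) (hε : 0 < ε) (hu : 2 * (ε * (2 * b + 2)) ≤ d) {S : ℝ}
    (hS : ∑ N ∈ Finset.Ioc ⌊T ^ (1 / 2 - d)⌋₊ ⌊T ^ (1 / 2 + 2 * d)⌋₊, ‖eN F T a 0 N‖ ^ 2 / N ≤ S) :
    ∫⁻ t in Set.Icc T (2 * T), ‖DP ⌊T ^ (2020 / 4032 : ℝ)⌋₊ (eE F T d a) t * Rt T t‖ₑ ^ 2 ≤ ENNReal.ofReal (KR * S * T) := by
  have hT0 : 0 < T := by linarith
  refine ms_rr hT (fun n hn => ?_) ?_ ?_
  · have h1 := floor_lt_rpow hT hn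
    unfold eE
    split_ifs with h
    · rfl
    · exact eN_zero_of_lt hF ha hT hε hu
        (lt_of_le_of_lt (Real.rpow_le_rpow_of_exponent_le hT.le (by linarith)) h1)
  · have := floor_mul_le hT (u := 2020 / 4032) (v := 503 / 1008) (w := 1) (by norm_num)
    rw [Real.rpow_one] at this
    exact this
  · refine le_trans ?_ hS
    have h1 : ∀ n ∈ Finset.Icc 1 ⌊T⌋₊, ‖eE F T d a n‖ ^ 2 / (n:ℝ) =
        if n ∈ Finset.Ioc ⌊T ^ (1 / 2 - d)⌋₊ ⌊T ^ (1 / 2 + 2 * d)⌋₊ then ‖eN F T a 0 n‖ ^ 2 / (n:ℝ) else 0 := by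
      intro n _
      unfold eE
      by_cases h : (n : ℝ) ≤ T ^ (1 / 2 - d)
      · rw [if_pos h, if_neg]
        · simp
        · rw [Finset.mem_Ioc]
          intro h2
          have := floor_lt_rpow hT h2.1
          linarith
      · rw [if_neg h]
        rw [not_le] at h
        by_cases h2 : n ≤ ⌊T ^ (1 / 2 + 2 * d)⌋₊
        · rw [if_pos (Finset.mem_Ioc.2 ⟨(Nat.floor_lt (by positivity)).2 h, h2⟩)]
        · rw [if_neg (fun h3 => h2 (Finset.mem_Ioc.1 h3).2),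
            eN_zero_of_lt hF ha hT hε hu (floor_lt_rpow hT (not_le.1 h2))]
          simp
    rw [Finset.sum_congr rfl h1, ← Finset.sum_filter]
    refine Finset.sum_le_sum_of_subset_of_nonneg (fun n hn => ?_) fun _ _ _ => by positivity
    exact (Finset.mem_filter.1 hn).2

/-- the second cut, for a fixed twist -/
lemma ms_two {F₂ : ℝ → ℂ} (hF : IsCut (2018 / 4032) (2019 / 4032) F₂) {T ε : ℝ} {b : ℕ} {a : ℕ → ℝ} (ha : IsCM T ε b a)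
    (hT : 1 < T) (hε : 0 < ε) (hu : 2 * (ε * (2 * b + 2)) ≤ 1 / 4032) (ξ : ℝ) {S : ℝ}
    (hS : ∑ N ∈ Finset.Icc 1 ⌊T⌋₊, ‖eN F₂ T a ξ N‖ ^ 2 / N ≤ S) :
    ∫⁻ t in Set.Icc T (2 * T), ‖BF F₂ T ξ t * (Mt T a t * Rt T t)‖ₑ ^ 2 ≤ ENNReal.ofReal (KR * S * T) := by
  have hT0 : 0 < T := by linarith
  have e1 : ∀ t, BF F₂ T ξ t * (Mt T a t * Rt T t) = DP ⌊T ^ (2020 / 4032 : ℝ)⌋₊ (fun N => eN F₂ T a ξ N) t * Rt T t := by
    intro t
    have e2 : BF F₂ T ξ t = DP ⌊T ^ (2019 / 4032 : ℝ)⌋₊ (kap F₂ T ξ) t := by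
      rw [BF_eq]
      symm
      refine DP_trunc (fun n hn => kap_zero hF hT ξ hn) ?_ t
      apply Nat.floor_le_floor
      conv_rhs => rw [← Real.rpow_one T]
      exact Real.rpow_le_rpow_of_exponent_le hT.le (by norm_num)
    rw [e2, ← mul_assoc]
    congr 1
    rw [mul_comm]
    unfold Mt XM2
    rw [DP_mul (X := ⌊T ^ (1 / 4032 : ℝ)⌋₊) (Y := ⌊T ^ (2019 / 4032 : ℝ)⌋₊) (Z := ⌊T ^ (2020 / 4032 : ℝ)⌋₊)
      (fun n hn => a_zero_of_lt ha hT hε hu hn) (fun n hn => kap_zero hF hT ξ hn)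
      (floor_mul_le hT (by norm_num))]
    rfl
  simp_rw [e1]
  refine ms_rr hT (fun n hn => ?_) ?_ hS
  · -- the coefficients vanish beyond `T^(2020/4032)`
    rw [eN_eq, cc_anti]
    refine Finset.sum_eq_zero fun x hx => ?_
    obtain ⟨h1, h2⟩ := Nat.mem_divisorsAntidiagonal.1 hx
    by_cases h3 : ⌊T ^ (1 / 4032 : ℝ)⌋₊ < x.1
    · rw [a_zero_of_lt ha hT hε hu h3, zero_mul]
    · by_cases h4 : ⌊T ^ (2019 / 4032 : ℝ)⌋₊ < x.2
      · rw [kap_zero hF hT ξ h4, mul_zero]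
      · exfalso
        have h5 : x.1 * x.2 ≤ ⌊T ^ (2020 / 4032 : ℝ)⌋₊ :=
          (Nat.mul_le_mul (not_lt.1 h3) (not_lt.1 h4)).trans (floor_mul_le hT (by norm_num))
        omega
  · have := floor_mul_le hT (u := 2020 / 4032) (v := 503 / 1008) (w := 1) (by norm_num)
    rw [Real.rpow_one] at this
    exact this

/-- the non-squarefree part -/
lemma ms_nsq {T : ℝ} (hT : 1 < T) {e : ℕ → ℂ} {C : ℝ} (he : ∀ n, ‖e n‖ ≤ C)
    (he' : ∀ n, e n ≠ 0 → n ≠ 0 ∧ ¬ Squarefree n ∧ ∀ p ∈ n.primeFactors, Big T p) :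
    ∫⁻ t in Set.Icc T (2 * T), ‖DP (XR2 T) e t‖ₑ ^ 4 ≤
      ENNReal.ofReal (28 * T * (KV * (C ^ 2 * (2 * T ^ (-(1 / 4032) : ℝ) * EV)) ^ 2)) := by
  classical
  have hT0 : 0 < T := by linarith
  have hTX : XR2 T ≤ ⌊T⌋₊ := by
    unfold XR2
    apply Nat.floor_le_floor
    conv_rhs => rw [← Real.rpow_one T]
    exact Real.rpow_le_rpow_of_exponent_le hT.le (by norm_num)
  set e' : ℕ → ℂ := fun n => if n ≤ XR2 T then e n else 0 with hee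
  have h0 : ∀ t, DP (XR2 T) e t = DP (XR2 T) e' t := fun t => DP_congr (fun n _ hn => by simp only [hee]; rw [if_pos hn]) t
  have hz : ∀ n, XR2 T < n → e' n = 0 := fun n hn => by simp only [hee]; rw [if_neg (by omega)]
  have e1 : ∀ t, ‖DP (XR2 T) e t‖ₑ ^ 4 = ‖DP ⌊T⌋₊ (cc e' e') t‖ₑ ^ 2 := by
    intro t
    have hX : XR2 T * XR2 T ≤ ⌊T⌋₊ := by
      have := floor_mul_le hT (u := 503 / 1008) (v := 503 / 1008) (w := 1) (by norm_num)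
      rw [Real.rpow_one] at this
      exact this
    rw [← DP_mul hz hz hX, h0, enorm_mul]
    ring
  simp_rw [e1]
  refine (dp_mv _ hT0 (int_floor_le hT)).trans (ENNReal.ofReal_le_ofReal ?_)
  have hKV : 0 < KV := lt_of_lt_of_le one_pos KV_one
  have hEV := EV_pos
  have hrg : ∀ h, e' h ≠ 0 → RgV T h := by
    intro h hh
    have h1 : e h ≠ 0 := by
      simp only [hee] at hh
      split_ifs at hh
      · exact hh
      · exact absurd rfl hh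
    exact ⟨(he' h h1).1, fun p hp => ((he' h h1).2.2 p hp).1⟩
  have h1 := conv_sqK hT (e := e') (r := e') hrg (int_floor_le hT)
  have h2 : ∑ h ∈ Finset.Icc 1 ⌊T⌋₊, ‖e' h‖ ^ 2 / (h:ℝ) ≤ C ^ 2 * (2 * T ^ (-(1 / 4032) : ℝ) * EV) := by
    refine le_trans (Finset.sum_le_sum fun h _ => ?_) (sum_nsqV hT ⌊T⌋₊ he he')
    refine div_le_div_of_nonneg_right (pow_le_pow_left₀ (norm_nonneg _) ?_ 2) (Nat.cast_nonneg _)
    simp only [hee]
    split_ifs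
    · exact le_rfl
    · simp
  have h3 : 0 ≤ ∑ n ∈ Finset.Icc 1 ⌊T⌋₊, ‖e' n‖ ^ 2 / (n:ℝ) := Finset.sum_nonneg fun _ _ => by positivity
  refine mul_le_mul_of_nonneg_left (h1.trans ?_) (by positivity)
  rw [mul_assoc, sq]
  exact mul_le_mul_of_nonneg_left (mul_le_mul h2 h2 h3 (h3.trans h2)) (by positivity)

end Pool.Agent.Helper25.HV
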