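import Pool.Agent.Helper25.HV.V5

/-!
# HV-V6: the term with the second cut
-/

open Finset MeasureTheory Filter Topology Set

namespace Pool.Agent.Helper25.HV

open Pool.Agent.Helper69.HG Pool.Agent.Helper25.HG Pool.Agent.Helper85.SV

lemma BF_cont (F₂ : ℝ → ℂ) (T : ℝ) : Continuous fun p : ℝ × ℝ => BF F₂ T p.2 p.1 := by
  unfold BF DP
  refine continuous_finset_sum _ fun n hn => ?_
  have hn0 : (n : ℂ) ≠ 0 := by
    have := (Finset.mem_Icc.1 hn).1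
    exact_mod_cast (by omega : n ≠ 0)
  refine Continuous.mul (Continuous.mul continuous_const ?_) ?_
  · exact Continuous.const_cpow (by fun_prop) (Or.inl hn0)
  · exact Continuous.const_cpow (by fun_prop) (Or.inl hn0)

lemma BF_bd {lo hi : ℝ} {F₂ : ℝ → ℂ} (hF : IsCut lo hi F₂) (T ξ t : ℝ) : ‖BF F₂ T ξ t‖ ≤ 1 * (2 * Real.sqrt ⌊T⌋₊) := by
  rw [BF_eq]
  refine DP_triv _ (fun n => ?_) t
  rcases Nat.eq_zero_or_pos n with h | h
  · subst h
    unfold kap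
    rw [norm_mul]
    have h1 := hF.bd (Real.log ((0:ℕ):ℝ) / Real.log T)
    have h2 : ‖((0:ℕ) : ℂ) ^ (Complex.I * (ξ / Real.log T))‖ ≤ 1 := by
      rw [Nat.cast_zero]
      by_cases hz : (Complex.I * (ξ / Real.log T) : ℂ) = 0
      · rw [hz, Complex.cpow_zero, norm_one]
      · rw [Complex.zero_cpow hz, norm_zero]; exact zero_le_one
    calc _ ≤ (1:ℝ) * 1 := mul_le_mul h1 h2 (norm_nonneg _) zero_le_one
      _ = 1 := one_mul 1
  · exact kap_norm hF T ξ h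

/-- Cauchy-Schwarz with a weight -/
lemma cs_w {w h : ℝ → ℝ} (hw : ∀ x, 0 ≤ w x) (hwi : Integrable w) (hh : Continuous h) {B : ℝ} (hB : ∀ x, |h x| ≤ B) :
    Integrable (fun x => w x * h x ^ 2) ∧ (∫ x, w x * h x) ^ 2 ≤ (∫ x, w x) * ∫ x, w x * h x ^ 2 := by
  have i1 : Integrable (fun x => w x * h x) :=
    hwi.mul_bdd (c := B) hh.aestronglyMeasurable (Eventually.of_forall fun x => by rw [Real.norm_eq_abs]; exact hB x)
  have i2 : Integrable (fun x => w x * h x ^ 2) := by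
    have := i1.mul_bdd (c := B) hh.aestronglyMeasurable (Eventually.of_forall fun x => by rw [Real.norm_eq_abs]; exact hB x)
    refine this.congr (Eventually.of_forall fun x => ?_)
    simp only
    ring
  refine ⟨i2, ?_⟩
  have key : ∀ c : ℝ, 0 ≤ (∫ x, w x) * (c * c) + (-2 * ∫ x, w x * h x) * c + ∫ x, w x * h x ^ 2 := by
    intro c
    have h1 : 0 ≤ ∫ x, w x * (h x - c) ^ 2 := integral_nonneg fun x => mul_nonneg (hw x) (sq_nonneg _)
    have h2 : ∫ x, w x * (h x - c) ^ 2 = (∫ x, w x) * (c * c) + (-2 * ∫ x, w x * h x) * c + ∫ x, w x * h x ^ 2 := by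
      have e : ∀ x, w x * (h x - c) ^ 2 = c * c * w x + (-2 * c) * (w x * h x) + w x * h x ^ 2 := fun x => by ring
      have j1 : Integrable (fun x => c * c * w x + (-2 * c) * (w x * h x)) := (hwi.const_mul _).add (i1.const_mul _)
      calc ∫ x, w x * (h x - c) ^ 2 = ∫ x, (c * c * w x + (-2 * c) * (w x * h x) + w x * h x ^ 2) :=
            integral_congr_ae (Eventually.of_forall e)
        _ = (∫ x, (c * c * w x + (-2 * c) * (w x * h x))) + ∫ x, w x * h x ^ 2 := integral_add j1 i2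
        _ = ((∫ x, c * c * w x) + ∫ x, (-2 * c) * (w x * h x)) + ∫ x, w x * h x ^ 2 := by
            rw [integral_add (hwi.const_mul _) (i1.const_mul _)]
        _ = _ := by
            rw [integral_const_mul, integral_const_mul]
            ring
    rw [← h2]; exact h1
  have := discrim_le_zero key
  unfold discrim at this
  nlinarith

/-- weight `|ξ| ‖F ξ‖` -/
noncomputable def wF (F : ℝ → ℂ) (ξ : ℝ) : ℝ := |ξ| * ‖F ξ‖

lemma wF_nonneg (F : ℝ → ℂ) (ξ : ℝ) : 0 ≤ wF F ξ := by unfold wF; positivity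

lemma wF_int {lo hi : ℝ} {F : ℝ → ℂ} (hF : IsCut lo hi F) (k : ℕ) : Integrable (fun ξ => wF F ξ * (1 + |ξ|) ^ k) := by
  refine (hF.dec (k + 1)).mono' ?_ (Eventually.of_forall fun ξ => ?_)
  · have := hF.cont
    unfold wF
    exact Continuous.aestronglyMeasurable (by fun_prop)
  · rw [Real.norm_of_nonneg (mul_nonneg (wF_nonneg F ξ) (by positivity))]
    unfold wF
    rw [pow_succ]
    have h1 : |ξ| ≤ 1 + |ξ| := by linarith
    calc |ξ| * ‖F ξ‖ * (1 + |ξ|) ^ k ≤ (1 + |ξ|) * ‖F ξ‖ * (1 + |ξ|) ^ k := by gcongr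
      _ = (1 + |ξ|) ^ k * (1 + |ξ|) * ‖F ξ‖ := by ring

lemma wF_int0 {lo hi : ℝ} {F : ℝ → ℂ} (hF : IsCut lo hi F) : Integrable (wF F) := by
  have := wF_int hF 0
  simpa using this

/-- the mean square of the term with the second cut -/
lemma ms_J {lo hi : ℝ} {F F₂ : ℝ → ℂ} (hF : IsCut lo hi F) (hF₂ : IsCut (2018 / 4032) (2019 / 4032) F₂) {T ε : ℝ} {b : ℕ}
    {a : ℕ → ℝ} (ha : IsCM T ε b a) (hT : 1 < T) (hε : 0 < ε) (hu : 2 * (ε * (2 * b + 2)) ≤ 1 / 4032) {S : ℝ} (hS0 : 0 ≤ S)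
    (hS : ∀ ξ, ∑ N ∈ Finset.Icc 1 ⌊T⌋₊, ‖eN F₂ T a ξ N‖ ^ 2 / N ≤ S * (1 + |ξ|) ^ 4) :
    ∫⁻ t in Set.Icc T (2 * T), (ENNReal.ofReal (∫ ξ : ℝ, wF F ξ * ‖BF F₂ T ξ t‖)) ^ 2 * ‖Mt T a t * Rt T t‖ₑ ^ 2 ≤
      ENNReal.ofReal ((∫ ξ, wF F ξ) * (KR * S * T) * ∫ ξ, wF F ξ * (1 + |ξ|) ^ 4) := by
  have hT0 : 0 < T := by linarith
  have hK := KR_pos
  have hA0 : 0 ≤ ∫ ξ, wF F ξ := integral_nonneg (wF_nonneg F)
  -- pointwise
  have h1 : ∀ t, (ENNReal.ofReal (∫ ξ : ℝ, wF F ξ * ‖BF F₂ T ξ t‖)) ^ 2 * ‖Mt T a t * Rt T t‖ₑ ^ 2 ≤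
      ENNReal.ofReal (∫ ξ, wF F ξ) * ∫⁻ ξ, ENNReal.ofReal (wF F ξ) * ‖BF F₂ T ξ t * (Mt T a t * Rt T t)‖ₑ ^ 2 := by
    intro t
    have hc : Continuous fun ξ => ‖BF F₂ T ξ t‖ :=
      ((BF_cont F₂ T).comp (Continuous.prodMk (continuous_const (y := t)) continuous_id)).norm
    obtain ⟨h2, h3⟩ := cs_w (wF_nonneg F) (wF_int0 hF) hc (B := 1 * (2 * Real.sqrt ⌊T⌋₊))
      (fun ξ => by rw [abs_of_nonneg (norm_nonneg _)]; exact BF_bd hF₂ T ξ t)
    have h4 : (ENNReal.ofReal (∫ ξ : ℝ, wF F ξ * ‖BF F₂ T ξ t‖)) ^ 2 ≤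
        ENNReal.ofReal (∫ ξ, wF F ξ) * ∫⁻ ξ, ENNReal.ofReal (wF F ξ) * ‖BF F₂ T ξ t‖ₑ ^ 2 := by
      rw [← ENNReal.ofReal_pow (integral_nonneg fun ξ => mul_nonneg (wF_nonneg F ξ) (norm_nonneg _))]
      refine (ENNReal.ofReal_le_ofReal h3).trans ?_
      rw [ENNReal.ofReal_mul hA0]
      gcongr
      rw [ofReal_integral_eq_lintegral_ofReal h2
        (Eventually.of_forall fun ξ => mul_nonneg (wF_nonneg F ξ) (sq_nonneg _))]
      refine lintegral_mono fun ξ => ?_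
      rw [ENNReal.ofReal_mul (wF_nonneg F ξ), enorm_pow_eq]
    calc _ ≤ ENNReal.ofReal (∫ ξ, wF F ξ) * (∫⁻ ξ, ENNReal.ofReal (wF F ξ) * ‖BF F₂ T ξ t‖ₑ ^ 2) *
          ‖Mt T a t * Rt T t‖ₑ ^ 2 := by gcongr
      _ = ENNReal.ofReal (∫ ξ, wF F ξ) * ((∫⁻ ξ, ENNReal.ofReal (wF F ξ) * ‖BF F₂ T ξ t‖ₑ ^ 2) *
          ‖Mt T a t * Rt T t‖ₑ ^ 2) := by ring
      _ = _ := by
        congr 1
        rw [← lintegral_mul_const' _ _ (ENNReal.pow_ne_top enorm_ne_top)]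
        refine lintegral_congr fun ξ => ?_
        rw [enorm_mul (BF F₂ T ξ t), mul_pow]
        ring
  refine (lintegral_mono h1).trans ?_
  rw [lintegral_const_mul' _ _ (by simp)]
  have hmeas : AEMeasurable (Function.uncurry fun (t ξ : ℝ) => ENNReal.ofReal (wF F ξ) *
      ‖BF F₂ T ξ t * (Mt T a t * Rt T t)‖ₑ ^ 2) ((volume.restrict (Set.Icc T (2 * T))).prod volume) := by
    have c1 : Continuous fun p : ℝ × ℝ => BF F₂ T p.2 p.1 * (Mt T a p.1 * Rt T p.1) :=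
      (BF_cont F₂ T).mul (((continuous_DP _ _).comp continuous_fst).mul ((continuous_DP _ _).comp continuous_fst))
    have c2 : Continuous fun p : ℝ × ℝ => wF F p.2 := by
      have := hF.cont
      unfold wF
      fun_prop
    have m1 : Measurable fun p : ℝ × ℝ => ENNReal.ofReal (wF F p.2) := ENNReal.measurable_ofReal.comp c2.measurable
    have m2 : Measurable fun p : ℝ × ℝ => ‖BF F₂ T p.2 p.1 * (Mt T a p.1 * Rt T p.1)‖ₑ ^ 2 :=
      (c1.measurable.enorm).pow_const 2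
    exact (m1.mul m2).aemeasurable
  rw [lintegral_lintegral_swap hmeas]
  have h2 : ∀ ξ, ∫⁻ t in Set.Icc T (2 * T), ENNReal.ofReal (wF F ξ) * ‖BF F₂ T ξ t * (Mt T a t * Rt T t)‖ₑ ^ 2 ≤
      ENNReal.ofReal (wF F ξ * (1 + |ξ|) ^ 4 * (KR * S * T)) := by
    intro ξ
    rw [lintegral_const_mul' _ _ (by simp)]
    have h3 := ms_two hF₂ ha hT hε hu ξ (hS ξ)
    calc _ ≤ ENNReal.ofReal (wF F ξ) * ENNReal.ofReal (KR * (S * (1 + |ξ|) ^ 4) * T) := by gcongr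
      _ = ENNReal.ofReal (wF F ξ * (KR * (S * (1 + |ξ|) ^ 4) * T)) := (ENNReal.ofReal_mul (wF_nonneg F ξ)).symm
      _ = _ := by congr 1; ring
  have h3 : ∫⁻ ξ, ENNReal.ofReal (wF F ξ * (1 + |ξ|) ^ 4 * (KR * S * T)) =
      ENNReal.ofReal ((∫ ξ, wF F ξ * (1 + |ξ|) ^ 4) * (KR * S * T)) := by
    rw [← integral_mul_const, ofReal_integral_eq_lintegral_ofReal ((wF_int hF 4).mul_const _)]
    exact Eventually.of_forall fun ξ => by
      have := wF_nonneg F ξ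
      simp only [Pi.zero_apply]
      positivity
  calc _ ≤ ENNReal.ofReal (∫ ξ, wF F ξ) * ∫⁻ ξ, ENNReal.ofReal (wF F ξ * (1 + |ξ|) ^ 4 * (KR * S * T)) := by
        gcongr with ξ
        exact h2 ξ
    _ = ENNReal.ofReal (∫ ξ, wF F ξ) * ENNReal.ofReal ((∫ ξ, wF F ξ * (1 + |ξ|) ^ 4) * (KR * S * T)) := by rw [h3]
    _ = ENNReal.ofReal ((∫ ξ, wF F ξ) * ((∫ ξ, wF F ξ * (1 + |ξ|) ^ 4) * (KR * S * T))) := (ENNReal.ofReal_mul hA0).symm
    _ = _ := by congr 1; ring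

end Pool.Agent.Helper25.HV
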