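import Pool.Agent.Helper25.HV.V6

/-!
# HV-V7: the main part: uniform integrability; the non-squarefree part
-/

open Finset MeasureTheory Filter Topology Set

namespace Pool.Agent.Helper25.HV

open Pool.Agent.Helper69.HG Pool.Agent.Helper25.HG Pool.Agent.Helper85.SV

lemma PbD_cont (D : Dat) (T : ℝ) (i : ℕ) : Continuous (PbD D T i) := by
  classical
  unfold PbD
  refine continuous_finset_sum _ fun p hp => ?_
  have hp0 : (p : ℂ) ≠ 0 := by
    have := (Finset.mem_filter.1 hp).1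
    unfold AAD at this
    have h2 := (Finset.mem_Icc.1 (Finset.mem_filter.1 this).1).1
    exact_mod_cast (by omega : p ≠ 0)
  exact Continuous.const_cpow (by fun_prop) (Or.inl hp0)

lemma RFf_cont (D : Dat) (N : ℕ) (k Q : ℕ → ℝ) (T : ℝ) : Continuous (RFf D N k Q T) := by
  unfold RFf
  exact continuous_finset_sum _ fun m _ => continuous_const.mul (continuous_finset_sum _ fun i _ =>
    continuous_const.mul (continuous_finset_prod _ fun j _ => PbD_cont D T _))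

lemma RF_cont (T : ℝ) : Continuous (RF2 T) := by
  unfold RF2
  exact ((RFf_cont _ _ _ _ T).mul (RFf_cont _ _ _ _ T)).mul (RFf_cont _ _ _ _ T)

lemma lint_of_ii {f : ℝ → ℝ} (hf : Continuous f) (h0 : ∀ t, 0 ≤ f t) {T C : ℝ} (hT : 0 ≤ T)
    (h : ∫ t in T..(2 * T), f t ≤ C) :
    ∫⁻ t in Set.Icc T (2 * T), ENNReal.ofReal (f t) ≤ ENNReal.ofReal C := by
  refine lint_of_cont hf h0 ?_
  rw [integral_Icc_eq_integral_Ioc, ← intervalIntegral.integral_of_le (by linarith)]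
  exact h

/-- the non-squarefree part -/
lemma ms_AD {T : ℝ} (hT : 1 < T) {A : ℝ → ℂ} (hA : Continuous A) {C₂ C : ℝ} (hC₂ : 0 ≤ C₂) {e : ℕ → ℂ}
    (h4 : ∫ t in T..(2 * T), ‖A t‖ ^ 4 ≤ C₂ * T) (he : ∀ n, ‖e n‖ ≤ C)
    (he' : ∀ n, e n ≠ 0 → n ≠ 0 ∧ ¬ Squarefree n ∧ ∀ p ∈ n.primeFactors, Big T p) :
    ∫⁻ t in Set.Icc T (2 * T), ‖A t * DP (XR2 T) e t‖ₑ ^ 2 ≤
      ENNReal.ofReal ((C₂ + 28 * KV * (C ^ 2 * (2 * EV)) ^ 2) * T ^ (-(1 / 4032) : ℝ) * T) := by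
  have hT0 : 0 < T := by linarith
  have hKV : 0 < KV := lt_of_lt_of_le one_pos KV_one
  have hEV := EV_pos
  set κ : ℝ := T ^ (-(1 / 4032) : ℝ) with hκ
  have hκ0 : 0 < κ := Real.rpow_pos_of_pos hT0 _
  have hD := continuous_DP (XR2 T) e
  have h1 : ∫⁻ t in Set.Icc T (2 * T), ‖A t‖ₑ ^ 4 ≤ ENNReal.ofReal (C₂ * T) := by
    simp_rw [enorm_pow_eq]
    exact lint_of_ii (hA.norm.pow 4) (fun t => pow_nonneg (norm_nonneg _) 4) hT0.le h4
  have h2 := ms_nsq hT he he'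
  have h3 : ∀ t, ‖A t * DP (XR2 T) e t‖ₑ ^ 2 ≤
      ENNReal.ofReal κ * ‖A t‖ₑ ^ 4 + ENNReal.ofReal (1 / κ) * ‖DP (XR2 T) e t‖ₑ ^ 4 := by
    intro t
    rw [enorm_pow_eq, enorm_pow_eq, enorm_pow_eq, ← ENNReal.ofReal_mul hκ0.le, ← ENNReal.ofReal_mul (by positivity),
      ← ENNReal.ofReal_add (by positivity) (by positivity)]
    apply ENNReal.ofReal_le_ofReal
    rw [norm_mul]
    set x := ‖A t‖ ^ 2 with hx
    set y := ‖DP (XR2 T) e t‖ ^ 2 with hy
    have e1 : (‖A t‖ * ‖DP (XR2 T) e t‖) ^ 2 = x * y := by rw [hx, hy]; ring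
    have e2 : ‖A t‖ ^ 4 = x ^ 2 := by rw [hx]; ring
    have e3 : ‖DP (XR2 T) e t‖ ^ 4 = y ^ 2 := by rw [hy]; ring
    rw [e1, e2, e3]
    have hx0 : 0 ≤ x := by positivity
    have hy0 : 0 ≤ y := by positivity
    have h5 : 0 ≤ (κ * x - y) ^ 2 / κ := by positivity
    have e4 : (κ * x - y) ^ 2 / κ = κ * x ^ 2 + 1 / κ * y ^ 2 - 2 * (x * y) := by
      field_simp
      ring
    have h6 : 0 ≤ x * y := mul_nonneg hx0 hy0
    linarith
  refine (lintegral_mono h3).trans ?_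
  rw [lintegral_add_left ((hA.measurable.enorm.pow_const 4).const_mul _), lintegral_const_mul' _ _ (by simp),
    lintegral_const_mul' _ _ (by simp)]
  calc _ ≤ ENNReal.ofReal κ * ENNReal.ofReal (C₂ * T) + ENNReal.ofReal (1 / κ) *
        ENNReal.ofReal (28 * T * (KV * (C ^ 2 * (2 * T ^ (-(1 / 4032) : ℝ) * EV)) ^ 2)) := by
        gcongr
    _ = ENNReal.ofReal (κ * (C₂ * T) + 1 / κ * (28 * T * (KV * (C ^ 2 * (2 * κ * EV)) ^ 2))) := by
        rw [← ENNReal.ofReal_mul hκ0.le, ← ENNReal.ofReal_mul (by positivity),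
          ← ENNReal.ofReal_add (by positivity) (by positivity)]
    _ = _ := by
        congr 1
        field_simp

end Pool.Agent.Helper25.HV
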