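import Pool.Agent.Helper25.HV.V7

/-!
# HV-V8: the block UI
-/

open Finset MeasureTheory Filter Topology Set

namespace Pool.Agent.Helper25.HV

open Pool.Agent.Helper69.HG Pool.Agent.Helper25.HG Pool.Agent.Helper85.SV

lemma ze_contV : Continuous (fun t : ℝ => ze t) := by
  have hd : DifferentiableOn ℂ riemannZeta {s : ℂ | s ≠ 1} := fun s hs =>
    (differentiableAt_riemannZeta hs).differentiableWithinAt
  unfold ze
  refine hd.continuousOn.comp_continuous (by fun_prop) (fun t => ?_)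
  intro h
  have := congrArg Complex.re h
  simp at this

/-- the pointwise inequality of the five parts -/
lemma five {x1 x2 x3 y z f : ℝ} (hf : 0 ≤ f) (h : f ≤ 2 * x1 + 2 * x2 + 2 * x3 + y + z) :
    f ^ 2 ≤ 20 * x1 ^ 2 + (20 * x2 ^ 2 + (20 * x3 ^ 2 + (5 * z ^ 2 + 5 * y ^ 2))) := by
  have h1 : f ^ 2 ≤ (2 * x1 + 2 * x2 + 2 * x3 + y + z) ^ 2 := pow_le_pow_left₀ hf h 2
  have h2 : (2 * x1 + 2 * x2 + 2 * x3 + y + z) ^ 2 ≤
      20 * x1 ^ 2 + (20 * x2 ^ 2 + (20 * x3 ^ 2 + (5 * z ^ 2 + 5 * y ^ 2))) := by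
    nlinarith [sq_nonneg (2 * x1 - 2 * x2), sq_nonneg (2 * x1 - 2 * x3), sq_nonneg (2 * x1 - y), sq_nonneg (2 * x1 - z),
      sq_nonneg (2 * x2 - 2 * x3), sq_nonneg (2 * x2 - y), sq_nonneg (2 * x2 - z), sq_nonneg (2 * x3 - y),
      sq_nonneg (2 * x3 - z), sq_nonneg (y - z)]
  linarith

/-- the twisted integral of the weight -/
lemma twist_le {lo hi : ℝ} {F₂ : ℝ → ℂ} (hF : IsCut lo hi F₂) {ε : ℝ} (hε : 0 < ε) (hε1 : ε ≤ 1) (ξ₀ : ℝ) :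
    (∫ ξ : ℝ, (1 + ε * |ξ + ξ₀|) ^ 2 * ‖F₂ ξ‖) ≤ (1 + |ξ₀|) ^ 2 * ∫ ξ : ℝ, (1 + |ξ|) ^ 2 * ‖F₂ ξ‖ := by
  rw [← integral_const_mul]
  refine integral_mono_of_nonneg (Eventually.of_forall fun ξ => by positivity) ((hF.dec 2).const_mul _)
    (Eventually.of_forall fun ξ => ?_)
  simp only
  have h1 : 1 + ε * |ξ + ξ₀| ≤ (1 + |ξ₀|) * (1 + |ξ|) := by
    have h2 := abs_add_le ξ ξ₀
    have h3 := abs_nonneg ξ
    have h4 := abs_nonneg ξ₀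
    have h5 : ε * |ξ + ξ₀| ≤ 1 * |ξ + ξ₀| := mul_le_mul_of_nonneg_right hε1 (abs_nonneg _)
    nlinarith [mul_nonneg h3 h4]
  calc (1 + ε * |ξ + ξ₀|) ^ 2 * ‖F₂ ξ‖ ≤ ((1 + |ξ₀|) * (1 + |ξ|)) ^ 2 * ‖F₂ ξ‖ := by
        gcongr
    _ = (1 + |ξ₀|) ^ 2 * ((1 + |ξ|) ^ 2 * ‖F₂ ξ‖) := by ring

/-- for small `ε` the untwisted integral is at most twice the `L¹` norm -/
lemma twist_small {lo hi : ℝ} {F : ℝ → ℂ} (hF : IsCut lo hi F) (hlo : 0 ≤ lo) {ε : ℝ} (hε : 0 < ε) (hε1 : ε ≤ 1)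
    (hε2 : 3 * ε * (∫ ξ : ℝ, (1 + |ξ|) ^ 2 * ‖F ξ‖) ≤ 1) :
    (∫ ξ : ℝ, (1 + ε * |ξ + 0|) ^ 2 * ‖F ξ‖) ≤ 2 * ∫ ξ : ℝ, ‖F ξ‖ := by
  have i0 : Integrable fun ξ => ‖F ξ‖ := by simpa using hF.dec 0
  have h1 : 1 ≤ ∫ ξ : ℝ, ‖F ξ‖ := by
    have h2 := hF.one 0 (by norm_num) hlo
    unfold kF at h2
    have h3 : ‖∫ ξ : ℝ, F ξ * Complex.exp (Complex.I * (ξ * (0:ℝ)))‖ ≤ ∫ ξ : ℝ, ‖F ξ‖ := by
      refine (norm_integral_le_integral_norm _).trans (le_of_eq (integral_congr_ae (Eventually.of_forall fun ξ => ?_)))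
      simp
    rw [h2, norm_one] at h3
    exact h3
  have h4 : (∫ ξ : ℝ, (1 + ε * |ξ + 0|) ^ 2 * ‖F ξ‖) ≤ ∫ ξ : ℝ, (‖F ξ‖ + 3 * ε * ((1 + |ξ|) ^ 2 * ‖F ξ‖)) := by
    refine integral_mono_of_nonneg (Eventually.of_forall fun ξ => by positivity)
      (i0.add ((hF.dec 2).const_mul _)) (Eventually.of_forall fun ξ => ?_)
    simp only [add_zero]
    have h5 := abs_nonneg ξ
    have h6 : (1 + ε * |ξ|) ^ 2 ≤ 1 + 3 * ε * (1 + |ξ|) ^ 2 := by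
      have h7 : ε ^ 2 ≤ ε := by nlinarith
      nlinarith [mul_nonneg hε.le h5, mul_nonneg hε.le (sq_nonneg |ξ|), mul_le_mul_of_nonneg_right h7 (sq_nonneg |ξ|)]
    calc (1 + ε * |ξ|) ^ 2 * ‖F ξ‖ ≤ (1 + 3 * ε * (1 + |ξ|) ^ 2) * ‖F ξ‖ := mul_le_mul_of_nonneg_right h6 (norm_nonneg _)
      _ = ‖F ξ‖ + 3 * ε * ((1 + |ξ|) ^ 2 * ‖F ξ‖) := by ring
  rw [integral_add i0 ((hF.dec 2).const_mul _), integral_const_mul] at h4
  linarith

lemma Mt_cont (T : ℝ) (a : ℕ → ℝ) : Continuous (Mt T a) := continuous_DP _ _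
lemma Rt_cont (T : ℝ) : Continuous (Rt T) := continuous_DP _ _
lemma Am_cont (T d : ℝ) (a : ℕ → ℝ) : Continuous (Am T d a) := continuous_DP _ _

/-- the estimate for one `T` -/
theorem ui_one {d : ℝ} {F F₂ : ℝ → ℂ} (hd : 0 < d) (hd1 : d ≤ 1 / 4032) (hF : IsCut (1 / 2 - d) (1 / 2 + d) F)
    (hF₂ : IsCut (2018 / 4032) (2019 / 4032) F₂) {T ε : ℝ} {b : ℕ} {a : ℕ → ℝ} (ha : IsCM T ε b a) (hT : 1 < T) (hε : 0 < ε)
    (hu : 2 * (ε * (2 * b + 2)) ≤ d) {C₆ : ℝ} (hC₆ : 0 ≤ C₆)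
    (hafe : ∀ t ∈ Set.Icc T (2 * T), ‖ze t‖ ≤ 2 * ‖BF F T 0 t‖ +
      C₆ / Real.log T * (∫ ξ : ℝ, |ξ| * ‖F ξ‖ * ‖BF F₂ T ξ t‖) + C₆ * T ^ (-(1 / 4) : ℝ))
    {e : ℕ → ℂ} (hRD : ∀ t : ℝ, RF2 T t = DP (XR2 T) (fun n => (rr2 T n : ℂ) + e n) t)
    {G : Set ℝ} (hGm : MeasurableSet G) (hG : G ⊆ Set.Icc T (2 * T)) {M1 M2 M3 M4 : ℝ}
    (h1 : ∫⁻ t in G, ‖Am T d a t * RF2 T t‖ₑ ^ 2 ≤ ENNReal.ofReal M1)
    (h2 : ∫⁻ t in Set.Icc T (2 * T), ‖Am T d a t * DP (XR2 T) e t‖ₑ ^ 2 ≤ ENNReal.ofReal M2)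
    (h3 : ∫⁻ t in Set.Icc T (2 * T), ‖DP ⌊T ^ (2020 / 4032 : ℝ)⌋₊ (eE F T d a) t * Rt T t‖ₑ ^ 2 ≤ ENNReal.ofReal M3)
    (h4 : ∫⁻ t in Set.Icc T (2 * T), (ENNReal.ofReal (∫ ξ : ℝ, wF F ξ * ‖BF F₂ T ξ t‖)) ^ 2 *
      ‖Mt T a t * Rt T t‖ₑ ^ 2 ≤ ENNReal.ofReal M4)
    (hM1 : 0 ≤ M1) (hM2 : 0 ≤ M2) (hM3 : 0 ≤ M3) (hM4 : 0 ≤ M4) :
    ∫ t in G, ‖fg2 T a t‖ ^ 2 ≤ 20 * M1 + (20 * M2 + (20 * M3 + (5 * (C₆ ^ 2 * T ^ (-(1 / 2) : ℝ) *
      (16 * CV ^ 2 * T ^ (2013 / 4032 : ℝ))) * T + 5 * (C₆ / Real.log T) ^ 2 * M4))) := by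
  have hT0 : 0 < T := by linarith
  have hL : 0 < Real.log T := Real.log_pos hT
  have hfg : ∀ t, fg2 T a t = ze t * (Mt T a t * Rt T t) := fun t => fg_eq ha hT hε (by linarith) t
  have hfgc : Continuous (fg2 T a) := by
    have e0 : fg2 T a = fun t => ze t * (Mt T a t * Rt T t) := by funext t; exact hfg t
    rw [e0]
    exact ze_contV.mul ((Mt_cont T a).mul (Rt_cont T))
  set E := DP ⌊T ^ (2020 / 4032 : ℝ)⌋₊ (eE F T d a) with hE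
  have hEc : Continuous E := continuous_DP _ _
  set De := DP (XR2 T) e with hDe
  have hDec : Continuous De := continuous_DP _ _
  set J : ℝ → ℝ := fun t => ∫ ξ : ℝ, wF F ξ * ‖BF F₂ T ξ t‖ with hJ
  have hJ0 : ∀ t, 0 ≤ J t := fun t => integral_nonneg fun ξ => mul_nonneg (wF_nonneg F ξ) (norm_nonneg _)
  set tiny : ℝ := 5 * (C₆ ^ 2 * T ^ (-(1 / 2) : ℝ) * (16 * CV ^ 2 * T ^ (2013 / 4032 : ℝ))) with htiny
  have htiny0 : 0 ≤ tiny := by rw [htiny]; positivity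
  -- pointwise
  have hpt : ∀ t ∈ Set.Icc T (2 * T), ‖fg2 T a t‖ₑ ^ 2 ≤ 20 * ‖Am T d a t * RF2 T t‖ₑ ^ 2 +
      (20 * ‖Am T d a t * De t‖ₑ ^ 2 + (20 * ‖E t * Rt T t‖ₑ ^ 2 + (ENNReal.ofReal tiny +
        ENNReal.ofReal (5 * (C₆ / Real.log T) ^ 2) * ((ENNReal.ofReal (J t)) ^ 2 * ‖Mt T a t * Rt T t‖ₑ ^ 2)))) := by
    intro t ht
    have k1 : ‖fg2 T a t‖ ≤ 2 * ‖Am T d a t * RF2 T t‖ + 2 * ‖Am T d a t * De t‖ + 2 * ‖E t * Rt T t‖ +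
        (C₆ / Real.log T) * (J t * ‖Mt T a t * Rt T t‖) + C₆ * T ^ (-(1 / 4) : ℝ) * ‖Mt T a t * Rt T t‖ := by
      have k2 := hafe t ht
      have k3 : BF F T 0 t * (Mt T a t * Rt T t) = Am T d a t * RF2 T t - Am T d a t * De t + E t * Rt T t := by
        have k4 := BM_split hd hd1 hF ha hT hε hu t
        have k5 : RF2 T t = Rt T t + De t := by
          rw [hRD t, DP_add]; rfl
        rw [← mul_assoc, k4, k5]
        ring
      have k6 : ‖BF F T 0 t‖ * ‖Mt T a t * Rt T t‖ ≤ ‖Am T d a t * RF2 T t‖ + ‖Am T d a t * De t‖ + ‖E t * Rt T t‖ := by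
        rw [← norm_mul, k3]
        exact (norm_add_le _ _).trans (by linarith [norm_sub_le (Am T d a t * RF2 T t) (Am T d a t * De t)])
      rw [hfg t, norm_mul]
      have k7 : ‖ze t‖ * ‖Mt T a t * Rt T t‖ ≤ (2 * ‖BF F T 0 t‖ +
          C₆ / Real.log T * (∫ ξ : ℝ, |ξ| * ‖F ξ‖ * ‖BF F₂ T ξ t‖) + C₆ * T ^ (-(1 / 4) : ℝ)) * ‖Mt T a t * Rt T t‖ :=
        mul_le_mul_of_nonneg_right k2 (norm_nonneg _)
      have k8 : (∫ ξ : ℝ, |ξ| * ‖F ξ‖ * ‖BF F₂ T ξ t‖) = J t := rfl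
      rw [k8] at k7
      refine k7.trans ?_
      have k9 : (2 * ‖BF F T 0 t‖ + C₆ / Real.log T * J t + C₆ * T ^ (-(1 / 4) : ℝ)) * ‖Mt T a t * Rt T t‖ =
          2 * (‖BF F T 0 t‖ * ‖Mt T a t * Rt T t‖) + (C₆ / Real.log T) * (J t * ‖Mt T a t * Rt T t‖) +
            C₆ * T ^ (-(1 / 4) : ℝ) * ‖Mt T a t * Rt T t‖ := by ring
      rw [k9]
      linarith
    have k10 := five (norm_nonneg _) k1
    have k11 : 5 * (C₆ * T ^ (-(1 / 4) : ℝ) * ‖Mt T a t * Rt T t‖) ^ 2 ≤ tiny := by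
      have k12 := MR_triv ha hT t
      have k13 : (T ^ (-(1 / 4) : ℝ)) ^ 2 = T ^ (-(1 / 2) : ℝ) := by
        rw [← Real.rpow_natCast, ← Real.rpow_mul hT0.le]; norm_num
      rw [htiny, mul_pow, mul_pow, k13]
      exact mul_le_mul_of_nonneg_left (mul_le_mul_of_nonneg_left k12 (by positivity)) (by norm_num)
    have k14 : ‖fg2 T a t‖ ^ 2 ≤ 20 * ‖Am T d a t * RF2 T t‖ ^ 2 + (20 * ‖Am T d a t * De t‖ ^ 2 +
        (20 * ‖E t * Rt T t‖ ^ 2 + (tiny + 5 * (C₆ / Real.log T) ^ 2 * ((J t) ^ 2 * ‖Mt T a t * Rt T t‖ ^ 2)))) := by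
      refine k10.trans ?_
      have k15 : 5 * ((C₆ / Real.log T) * (J t * ‖Mt T a t * Rt T t‖)) ^ 2 =
          5 * (C₆ / Real.log T) ^ 2 * ((J t) ^ 2 * ‖Mt T a t * Rt T t‖ ^ 2) := by ring
      rw [k15]
      linarith
    rw [enorm_pow_eq]
    refine (ENNReal.ofReal_le_ofReal k14).trans (le_of_eq ?_)
    have hJt := hJ0 t
    rw [ENNReal.ofReal_add (by positivity) (by positivity), ENNReal.ofReal_add (by positivity) (by positivity),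
      ENNReal.ofReal_add (by positivity) (by positivity), ENNReal.ofReal_add htiny0 (by positivity),
      ENNReal.ofReal_mul (by norm_num), ENNReal.ofReal_mul (by norm_num), ENNReal.ofReal_mul (by norm_num),
      ENNReal.ofReal_mul (p := 5 * (C₆ / Real.log T) ^ 2) (by positivity), ENNReal.ofReal_mul (p := J t ^ 2) (by positivity),
      ENNReal.ofReal_pow hJt, enorm_pow_eq, enorm_pow_eq, enorm_pow_eq, enorm_pow_eq]
    norm_num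
  -- integrate
  have hmono : ∀ f : ℝ → ENNReal, ∫⁻ t in G, f t ≤ ∫⁻ t in Set.Icc T (2 * T), f t := fun f => lintegral_mono_set hG
  have hRFc : Continuous (RF2 T) := RF_cont T
  have hAc := Am_cont T d a
  have hRc := Rt_cont T
  have hint : ∫⁻ t in G, ‖fg2 T a t‖ₑ ^ 2 ≤ ENNReal.ofReal (20 * M1 + (20 * M2 + (20 * M3 + (tiny * T +
      5 * (C₆ / Real.log T) ^ 2 * M4)))) := by
    have hvol : volume G ≤ ENNReal.ofReal T := by
      refine (measure_mono hG).trans ?_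
      rw [Real.volume_Icc]
      exact le_of_eq (by congr 1; ring)
    calc ∫⁻ t in G, ‖fg2 T a t‖ₑ ^ 2 ≤ ∫⁻ t in G, (20 * ‖Am T d a t * RF2 T t‖ₑ ^ 2 +
      (20 * ‖Am T d a t * De t‖ₑ ^ 2 + (20 * ‖E t * Rt T t‖ₑ ^ 2 + (ENNReal.ofReal tiny +
        ENNReal.ofReal (5 * (C₆ / Real.log T) ^ 2) * ((ENNReal.ofReal (J t)) ^ 2 * ‖Mt T a t * Rt T t‖ₑ ^ 2))))) :=
          setLIntegral_mono' hGm fun t ht => hpt t (hG ht)
      _ = (20 * ∫⁻ t in G, ‖Am T d a t * RF2 T t‖ₑ ^ 2) + ((20 * ∫⁻ t in G, ‖Am T d a t * De t‖ₑ ^ 2) +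
          ((20 * ∫⁻ t in G, ‖E t * Rt T t‖ₑ ^ 2) + (ENNReal.ofReal tiny * volume G +
            ENNReal.ofReal (5 * (C₆ / Real.log T) ^ 2) *
              ∫⁻ t in G, ((ENNReal.ofReal (J t)) ^ 2 * ‖Mt T a t * Rt T t‖ₑ ^ 2)))) := by
          have m1 : Measurable fun t => 20 * ‖Am T d a t * RF2 T t‖ₑ ^ 2 :=
            ((hAc.mul hRFc).measurable.enorm.pow_const 2).const_mul _
          have m2 : Measurable fun t => 20 * ‖Am T d a t * De t‖ₑ ^ 2 :=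
            ((hAc.mul hDec).measurable.enorm.pow_const 2).const_mul _
          have m3 : Measurable fun t => 20 * ‖E t * Rt T t‖ₑ ^ 2 :=
            ((hEc.mul hRc).measurable.enorm.pow_const 2).const_mul _
          rw [lintegral_add_left m1, lintegral_add_left m2, lintegral_add_left m3, lintegral_add_left measurable_const, lintegral_const_mul' _ _ (by norm_num), lintegral_const_mul' _ _ (by norm_num),
            lintegral_const_mul' _ _ (by norm_num), lintegral_const_mul' _ _ ENNReal.ofReal_ne_top, setLIntegral_const]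
      _ ≤ 20 * ENNReal.ofReal M1 + (20 * ENNReal.ofReal M2 + (20 * ENNReal.ofReal M3 + (ENNReal.ofReal tiny *
          ENNReal.ofReal T + ENNReal.ofReal (5 * (C₆ / Real.log T) ^ 2) * ENNReal.ofReal M4))) := by
          gcongr
          · exact (hmono _).trans h2
          · exact (hmono _).trans h3
          · exact (hmono _).trans h4
      _ = _ := by
          have e20 : (20 : ENNReal) = ENNReal.ofReal 20 := by norm_num
          rw [e20, ← ENNReal.ofReal_mul (by norm_num), ← ENNReal.ofReal_mul (by norm_num), ← ENNReal.ofReal_mul (by norm_num),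
            ← ENNReal.ofReal_mul htiny0, ← ENNReal.ofReal_mul (by positivity), ← ENNReal.ofReal_add (by positivity) (by positivity),
            ← ENNReal.ofReal_add (by positivity) (by positivity), ← ENNReal.ofReal_add (by positivity) (by positivity),
            ← ENNReal.ofReal_add (by positivity) (by positivity)]
  have hm : AEStronglyMeasurable (fun t => ‖fg2 T a t‖ ^ 2) (volume.restrict G) := (hfgc.norm.pow 2).aestronglyMeasurable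
  rw [integral_eq_lintegral_of_nonneg_ae (Eventually.of_forall fun t => by positivity) hm]
  refine ENNReal.toReal_le_of_le_ofReal (by positivity) ?_
  simp_rw [← enorm_pow_eq]
  exact hint

end Pool.Agent.Helper25.HV
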